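import Mathlib
import Pool.Agent.H443R3.Attractive
import Pool.Agent.Results.MP_417bbc_pr.BiasedNoiseErgodic

set_option autoImplicit false

open MeasureTheory ProbabilityTheory Filter Topology
open scoped ENNReal Pointwise

/-!
# Biased noise makes every monotone automaton ergodic in which some finite island survives
-/

namespace Pool.Agent.Y992.ND

open Pool.Agent.H443R3 Pool.Agent.H443R3.Attractive
open Pool.Agent.Results.MP_417bbc_pr.BiasedNoiseErgodic (lam pmf_sum pmf_ext theta_true_true)

variable {d : ℕ}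

/-- The deterministic cellular automaton with neighbourhood `N` and local rule `m`. -/
def CA (N : Finset (Site d)) (m : (N → Bool) → Bool) (x : Config d Bool) : Config d Bool :=
  fun i => m (fun n => x (i + n))

/-- The perturbation of the automaton `CA N m` by the zero-range noise `θ`. -/
noncomputable def noisy (N : Finset (Site d)) (m : (N → Bool) → Bool) (θ : Bool → PMF Bool) :
    PCA d Bool where
  nbhd := N
  rule := fun u => θ (m u)

/-- Every finite island of the symbol `b` in a sea of `!b` disappears. -/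
def Erodes (N : Finset (Site d)) (m : (N → Bool) → Bool) (b : Bool) : Prop :=
  ∀ x : Config d Bool, {i | x i = b}.Finite → ∃ t : ℕ, ∀ i, (CA N m)^[t] x i = !b

/-! ### Attractiveness -/

/-- The action of the noise variable. -/
def psi {N : Finset (Site d)} (m : (N → Bool) → Bool) (u : N → Bool) (w : Fin 3) : Bool :=
  if w = 1 then true else if w = 2 then false else m u

variable {N : Finset (Site d)} {m : (N → Bool) → Bool} {θ : Bool → PMF Bool} {ε δ : ℝ}

/-- The noisy automaton is attractive. -/
noncomputable def rep (hm : Monotone m) (hε : 0 ≤ ε) (hδ : 0 ≤ δ) (h : ε + δ ≤ 1)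
    (h1 : θ false true = ENNReal.ofReal ε) (h2 : θ true false = ENNReal.ofReal δ) :
    Rep (noisy N m θ) where
  lam := lam ε δ hε hδ h
  psi := psi m
  rule_eq := by
    intro u
    apply pmf_ext
    rw [PMF.map_apply, tsum_fintype, Fin.sum_univ_three]
    have e0 : lam ε δ hε hδ h 0 = ENNReal.ofReal (1 - ε - δ) := by
      unfold lam; rw [PMF.ofFintype_apply]; rfl
    have e1 : lam ε δ hε hδ h 1 = ENNReal.ofReal ε := by
      unfold lam; rw [PMF.ofFintype_apply]; rfl
    rw [e0, e1]
    show θ (m u) true = _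
    cases hmu : m u with
    | false => simp [psi, hmu, h1]
    | true =>
      rw [theta_true_true hδ h2]
      have : ENNReal.ofReal (1 - δ) = ENNReal.ofReal (1 - ε - δ) + ENNReal.ofReal ε := by
        rw [← ENNReal.ofReal_add (by linarith) hε]
        congr 1
        ring
      rw [this]
      simp [psi, hmu]
  mono := by
    intro u v huv w
    unfold psi
    split_ifs
    · exact le_rfl
    · exact le_rfl
    · exact hm huv

/-! ### Local monotonicity of the deterministic automaton -/

theorem ca_mono_local (hm : Monotone m) (t : ℕ) (A : Finset (Site d)) {x y : Config d Bool}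
    (h : ∀ i ∈ (fun B => B + N)^[t] A, x i ≤ y i) :
    ∀ i ∈ A, (CA N m)^[t] x i ≤ (CA N m)^[t] y i := by
  induction t generalizing x y with
  | zero => exact h
  | succ t ih =>
    rw [Function.iterate_succ_apply, Function.iterate_succ_apply]
    apply ih
    intro i hi
    apply hm
    intro n
    apply h
    rw [Function.iterate_succ_apply']
    exact Finset.add_mem_add hi n.2

theorem ca_shift (t : ℕ) (k : Site d) (x : Config d Bool) (i : Site d) :
    (CA N m)^[t] (fun j => x (j + k)) i = (CA N m)^[t] x (i + k) := by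
  induction t generalizing x with
  | zero => rfl
  | succ t ih =>
    have e1 : CA N m (fun j => x (j + k)) = fun j => CA N m x (j + k) := by
      funext j
      unfold CA
      congr 1
      funext n
      rw [add_right_comm]
    rw [Function.iterate_succ_apply, Function.iterate_succ_apply, e1, ih]

/-- The box `[-T, T]^d`. -/
noncomputable def box (T : ℕ) : Finset (Site d) := Finset.Icc (fun _ => -(T : ℤ)) (fun _ => (T : ℤ))

theorem card_box (T : ℕ) : (box (d := d) T).card = (2 * T + 1) ^ d := by
  unfold box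
  rw [Pi.card_Icc]
  simp only [Int.card_Icc, Finset.prod_const, Finset.card_univ, Fintype.card_fin]
  have : ((T : ℤ) + 1 - -(T : ℤ)).toNat = 2 * T + 1 := by omega
  rw [this]

theorem mem_box {T : ℕ} {i : Site d} : i ∈ box T ↔ ∀ j, |i j| ≤ T := by
  unfold box
  rw [Finset.mem_Icc, Pi.le_def, Pi.le_def]
  constructor
  · rintro ⟨h1, h2⟩ j
    exact abs_le.2 ⟨h1 j, h2 j⟩
  · intro h
    exact ⟨fun j => (abs_le.1 (h j)).1, fun j => (abs_le.1 (h j)).2⟩

theorem exists_box (N : Finset (Site d)) : ∃ R : ℕ, N ⊆ box R := by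
  refine ⟨∑ n ∈ N, ∑ j, (n j).natAbs, fun n hn => mem_box.2 fun j => ?_⟩
  have h1 : (n j).natAbs ≤ ∑ j, (n j).natAbs :=
    Finset.single_le_sum (f := fun j => (n j).natAbs) (fun _ _ => Nat.zero_le _) (Finset.mem_univ j)
  have h2 : (∑ j, (n j).natAbs) ≤ ∑ n ∈ N, ∑ j, (n j).natAbs :=
    Finset.single_le_sum (f := fun n : Site d => ∑ j, (n j).natAbs) (fun _ _ => Nat.zero_le _) hn
  rw [Int.abs_eq_natAbs]
  exact_mod_cast h1.trans h2

theorem cone_subset {R : ℕ} (hR : N ⊆ box R) (t : ℕ) :
    (fun B => B + N)^[t] ({0} : Finset (Site d)) ⊆ box (R * t) := by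
  induction t with
  | zero =>
    intro i hi
    rw [Function.iterate_zero_apply, Finset.mem_singleton] at hi
    subst hi
    exact mem_box.2 fun j => by simp
  | succ t ih =>
    rw [Function.iterate_succ_apply']
    intro i hi
    obtain ⟨a, ha, n, hn, rfl⟩ := Finset.mem_add.1 hi
    refine mem_box.2 fun j => ?_
    have h1 := mem_box.1 (ih ha) j
    have h2 := mem_box.1 (hR hn) j
    simp only [Pi.add_apply]
    calc |a j + n j| ≤ |a j| + |n j| := abs_add_le _ _
      _ ≤ ((R * t : ℕ) : ℤ) + (R : ℤ) := add_le_add h1 h2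
      _ = ((R * (t + 1) : ℕ) : ℤ) := by push_cast; ring

theorem box_mono {S T : ℕ} (h : S ≤ T) : box (d := d) S ⊆ box T := by
  intro i hi
  refine mem_box.2 fun j => (mem_box.1 hi j).trans ?_
  exact_mod_cast h

/-! ### One step of the operator -/

theorem op_ge_prod (Φ : PCA d Bool) (g : Config d Bool → ℝ≥0∞) (A : Finset (Site d))
    (hg : ∀ y : Config d Bool, (∀ i ∈ A, y i = true) → 1 ≤ g y) (x : Config d Bool) :
    ∏ i ∈ A, Φ.rule (Φ.pattern x i) true ≤ Φ.op g x := by
  have h1 : Φ.op (ind A (fun _ => true)) x = Φ.step x (cyl A (fun _ => true)) := by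
    unfold PCA.op
    exact lintegral_ind _ _ _
  have h2 : (cyl A (fun _ => true) : Set (Config d Bool)) =
      Set.pi (A : Set (Site d)) (fun _ => {true}) := by
    ext y
    simp only [cyl, Set.mem_pi, Set.mem_singleton_iff, Set.mem_ofPred_eq]
    constructor
    · intro h i hi
      exact h ⟨i, hi⟩
    · intro h a
      exact h a a.2
  have h3 : Φ.step x (cyl A (fun _ => true)) = ∏ i ∈ A, Φ.rule (Φ.pattern x i) true := by
    rw [h2]
    unfold PCA.step
    rw [Measure.infinitePi_pi _ (fun _ _ => MeasurableSet.singleton true)]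
    apply Finset.prod_congr rfl
    intro i _
    exact PMF.toMeasure_apply_singleton _ _ (MeasurableSet.singleton true)
  rw [← h3, ← h1]
  apply Φ.op_mono
  intro y
  unfold ind Set.indicator
  split_ifs with h
  · exact hg y (fun i hi => h ⟨i, hi⟩)
  · exact zero_le

/-- The indicator of the event that the deterministic automaton shows a `true` at the origin after
`t` steps. -/
noncomputable def gt (N : Finset (Site d)) (m : (N → Bool) → Bool) (t : ℕ) (x : Config d Bool) :
    ℝ≥0∞ := e 0 ((CA N m)^[t] x)

theorem gt_dependsOn (hm : Monotone m) (t : ℕ) :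
    DependsOn (gt N m t) (((fun B => B + N)^[t] ({0} : Finset (Site d)) : Finset (Site d)) :
      Set (Site d)) := by
  intro x y hxy
  unfold gt e
  have h1 := ca_mono_local hm t {0} (x := x) (y := y) (fun i hi => (hxy i hi).le) 0 (by simp)
  have h2 := ca_mono_local hm t {0} (x := y) (y := x) (fun i hi => (hxy i hi).ge) 0 (by simp)
  rw [le_antisymm h1 h2]

theorem gt_le_one (t : ℕ) (x : Config d Bool) : gt N m t x ≤ 1 := e_le_one _ _

/-- `gt` is one on configurations above a configuration which leads to a `true` at the origin. -/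
theorem one_le_gt (hm : Monotone m) (t : ℕ) {z y : Config d Bool}
    (hz : (CA N m)^[t] z 0 = true)
    (h : ∀ i ∈ (fun B => B + N)^[t] ({0} : Finset (Site d)), z i ≤ y i) : 1 ≤ gt N m t y := by
  have h1 := ca_mono_local hm t {0} h 0 (by simp)
  rw [hz] at h1
  unfold gt e
  rw [if_pos (Bool.eq_true_of_true_le h1)]

theorem rule_ge (hδ : 0 ≤ δ) (h : ε + δ ≤ 1)
    (h1 : θ false true = ENNReal.ofReal ε) (h2 : θ true false = ENNReal.ofReal δ) (c : Bool) :
    ENNReal.ofReal ε ≤ θ c true := by
  cases c with
  | false => rw [h1]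
  | true =>
    rw [theta_true_true hδ h2]
    exact ENNReal.ofReal_le_ofReal (by linarith)

/-- The one step estimate. -/
theorem op_gt_ge (hm : Monotone m) (hε : 0 ≤ ε) (hδ : 0 ≤ δ) (h : ε + δ ≤ 1)
    (h1 : θ false true = ENNReal.ofReal ε) (h2 : θ true false = ENNReal.ofReal δ)
    {x0 : Config d Bool} (F : Finset (Site d)) (hF : ∀ i, x0 i = true → i ∈ F)
    {t K : ℕ} (hs : ∃ i, (CA N m)^[t] x0 i = true)
    (hK : ((fun B => B + N)^[t] ({0} : Finset (Site d))).card ≤ K)
    {a : ℝ} (ha : a ≤ ε ^ F.card) (ha0 : 0 ≤ a) (hκ : a ≤ 1 - K * δ) (x : Config d Bool) :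
    ENNReal.ofReal a + ENNReal.ofReal (1 - K * δ - a) * gt N m (t + 1) x ≤
      (noisy N m θ).op (gt N m t) x := by
  by_cases hx : (CA N m)^[t + 1] x 0 = true
  · have hg : gt N m (t + 1) x = 1 := by unfold gt e; rw [if_pos hx]
    rw [hg, mul_one, ← ENNReal.ofReal_add ha0 (by linarith)]
    rw [Function.iterate_succ_apply] at hx
    set A := ((fun B => B + N)^[t] ({0} : Finset (Site d))).filter
      (fun i => CA N m x i = true) with hA
    have key := op_ge_prod (noisy N m θ) (gt N m t) A (fun y hy => by
      apply one_le_gt hm t hx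
      intro i hi
      cases hxi : CA N m x i with
      | false => exact Bool.false_le _
      | true =>
        have : y i = true := hy i (by rw [hA, Finset.mem_filter]; exact ⟨hi, hxi⟩)
        rw [this]) x
    refine le_trans ?_ key
    have e1 : ∏ i ∈ A, (noisy N m θ).rule ((noisy N m θ).pattern x i) true =
        ∏ _i ∈ A, ENNReal.ofReal (1 - δ) := by
      apply Finset.prod_congr rfl
      intro i hi
      rw [hA, Finset.mem_filter] at hi
      show θ (CA N m x i) true = _
      rw [hi.2, theta_true_true hδ h2]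
    rw [e1, Finset.prod_const, ← ENNReal.ofReal_pow (by linarith)]
    apply ENNReal.ofReal_le_ofReal
    have hAK : (A.card : ℝ) ≤ K := by
      exact_mod_cast (Finset.card_filter_le _ _).trans hK
    have hb := one_add_mul_le_pow (a := -δ) (by linarith) A.card
    have hb' : 1 - (A.card : ℝ) * δ ≤ (1 - δ) ^ A.card := by
      have e : 1 + (A.card : ℝ) * -δ = 1 - (A.card : ℝ) * δ := by ring
      rw [e] at hb
      simpa [sub_eq_add_neg] using hb
    have : (A.card : ℝ) * δ ≤ K * δ := mul_le_mul_of_nonneg_right hAK hδ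
    linarith
  · have hg : gt N m (t + 1) x = 0 := by unfold gt e; rw [if_neg hx]
    rw [hg, mul_zero, add_zero]
    obtain ⟨p, hp⟩ := hs
    set A : Finset (Site d) := F.image (fun i => i - p) with hA
    have key := op_ge_prod (noisy N m θ) (gt N m t) A (fun y hy => by
      have hz : (CA N m)^[t] (fun j => x0 (j + p)) 0 = true := by
        rw [ca_shift, zero_add]; exact hp
      apply one_le_gt hm t hz
      intro i _
      cases hxi : x0 (i + p) with
      | false => exact Bool.false_le _
      | true =>
        have : y i = true := hy i (by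
          rw [hA, Finset.mem_image]
          exact ⟨i + p, hF _ hxi, by abel⟩)
        rw [this]) x
    refine le_trans ?_ key
    have e1 : ∏ _i ∈ A, ENNReal.ofReal ε ≤
        ∏ i ∈ A, (noisy N m θ).rule ((noisy N m θ).pattern x i) true := by
      apply Finset.prod_le_prod'
      intro i _
      exact rule_ge hδ h h1 h2 _
    refine le_trans ?_ e1
    rw [Finset.prod_const, ← ENNReal.ofReal_pow hε]
    apply ENNReal.ofReal_le_ofReal
    have hcard : A.card ≤ F.card := Finset.card_image_le
    exact ha.trans (pow_le_pow_of_le_one hε (by linarith) hcard)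

/-! ### Many steps -/

theorem many_steps (hm : Monotone m) (hε : 0 ≤ ε) (hδ : 0 ≤ δ) (h : ε + δ ≤ 1)
    (h1 : θ false true = ENNReal.ofReal ε) (h2 : θ true false = ENNReal.ofReal δ)
    {x0 : Config d Bool} (F : Finset (Site d)) (hF : ∀ i, x0 i = true → i ∈ F)
    {T K : ℕ} (hs : ∀ t, ∃ i, (CA N m)^[t] x0 i = true)
    (hK : ∀ t ≤ T, ((fun B => B + N)^[t] ({0} : Finset (Site d))).card ≤ K)
    {a : ℝ} (ha : a ≤ ε ^ F.card) (ha0 : 0 ≤ a) (ha1 : a ≤ 1) (hκ : a ≤ 1 - K * δ)
    (x : Config d Bool) (n t : ℕ) (hnt : t + n ≤ T) :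
    1 - ((noisy N m θ).op^[n] (gt N m t) x).toReal ≤ (1 - a) ^ n + n * (K * δ) := by
  have hKδ : 0 ≤ (K : ℝ) * δ := by positivity
  have hfin : ∀ n t, (noisy N m θ).op^[n] (gt N m t) x ≠ ∞ := fun n t =>
    (((noisy N m θ).op_iterate_le_one (gt_le_one t) n x).trans_lt ENNReal.one_lt_top).ne
  induction n generalizing t with
  | zero =>
    have : 0 ≤ ((noisy N m θ).op^[0] (gt N m t) x).toReal := ENNReal.toReal_nonneg
    simp only [pow_zero, Nat.cast_zero, zero_mul, add_zero]
    linarith
  | succ n ih =>
    have hmono : ∀ (f g : Config d Bool → ℝ≥0∞), (∀ y, f y ≤ g y) → ∀ (k : ℕ) (y : Config d Bool),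
        (noisy N m θ).op^[k] f y ≤ (noisy N m θ).op^[k] g y := by
      intro f g hfg k
      induction k generalizing f g with
      | zero => exact hfg
      | succ k ihm => exact ihm _ _ ((noisy N m θ).op_mono hfg)
    have hstep := hmono _ _ (op_gt_ge hm hε hδ h h1 h2 F hF (hs t) (hK t (by omega)) ha ha0 hκ) n x
    have hdep1 := gt_dependsOn (N := N) hm (t + 1)
    have hdep : DependsOn (fun y : Config d Bool =>
        ENNReal.ofReal (1 - K * δ - a) * gt N m (t + 1) y)
        (((fun B => B + N)^[t + 1] ({0} : Finset (Site d)) : Finset (Site d)) : Set (Site d)) := by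
      intro y y' hyy
      show ENNReal.ofReal (1 - K * δ - a) * gt N m (t + 1) y =
        ENNReal.ofReal (1 - K * δ - a) * gt N m (t + 1) y'
      rw [hdep1 hyy]
    have hdep0 : DependsOn (fun _ : Config d Bool => ENNReal.ofReal a)
        ((∅ : Finset (Site d)) : Set (Site d)) := fun _ _ _ => rfl
    rw [op_iterate_add hdep0 hdep, op_iterate_const, op_iterate_mul _ hdep1,
      ← Function.iterate_succ_apply] at hstep
    have h3 := ENNReal.toReal_mono (hfin (n + 1) t) hstep
    rw [ENNReal.toReal_add ENNReal.ofReal_ne_top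
      (ENNReal.mul_ne_top ENNReal.ofReal_ne_top (hfin n (t + 1))), ENNReal.toReal_mul,
      ENNReal.toReal_ofReal ha0, ENNReal.toReal_ofReal (by linarith)] at h3
    have ih' := ih (t + 1) (by omega)
    set U := ((noisy N m θ).op^[n] (gt N m (t + 1)) x).toReal with hU
    set U' := ((noisy N m θ).op^[n + 1] (gt N m t) x).toReal with hU'
    have hU1 : U ≤ 1 := by
      have := ENNReal.toReal_mono ENNReal.one_ne_top
        ((noisy N m θ).op_iterate_le_one (gt_le_one (N := N) (m := m) (t + 1)) n x)
      simpa using this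
    have hU0 : 0 ≤ U := ENNReal.toReal_nonneg
    have e1 : 1 - U' ≤ (1 - a) * (1 - U) + K * δ * U := by linarith
    have e2 : (K : ℝ) * δ * U ≤ K * δ := mul_le_of_le_one_right hKδ hU1
    have e3 : (1 - a) * (1 - U) ≤ (1 - a) * ((1 - a) ^ n + n * (K * δ)) :=
      mul_le_mul_of_nonneg_left ih' (by linarith)
    have e4 : (1 - a) * (n * (K * δ)) ≤ n * (K * δ) := by
      apply mul_le_of_le_one_left (by positivity) (by linarith)
    have e5 : ((n + 1 : ℕ) : ℝ) * (K * δ) = n * (K * δ) + K * δ := by push_cast; ring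
    rw [e5, pow_succ]
    nlinarith

end Pool.Agent.Y992.ND
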