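import Mathlib
import Pool.Agent.Y992.ND.Core

set_option autoImplicit false

open MeasureTheory ProbabilityTheory Filter Topology
open scoped ENNReal Pointwise

/-!
# Ergodicity with an exponential rate in a cusp of noises
-/

namespace Pool.Agent.Y992.ND

open Pool.Agent.H443R3 Pool.Agent.H443R3.Attractive

variable {d : ℕ}

/-- `Φ` is ergodic with the invariant law `π`, and from all initial laws the probabilities of all
cylinders converge exponentially fast, at a uniform rate. -/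
structure ExpErgodic (Φ : PCA d Bool) (π : Measure (Config d Bool)) : Prop where
  erg : ErgodicWith Φ π
  rate : ∃ r : ℝ, 0 < r ∧ r < 1 ∧ ∀ μ : Measure (Config d Bool), IsProbabilityMeasure μ →
    ∀ (A : Finset (Site d)) (u : A → Bool) (n : ℕ),
      |((Φ.evolve^[n] μ) (cyl A u)).toReal - (π (cyl A u)).toReal| ≤ 4 * A.card * r ^ n

/-- From a contraction over `T` steps to an exponential rate. -/
theorem gap_exp {Φ : PCA d Bool} (R : Rep Φ) {T : ℕ} (hT : 1 ≤ T) (B : Finset (Site d))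
    (hB : DependsOn (Φ.op^[T] (e 0)) (B : Set (Site d)))
    {ρ : ℝ} (hρ : gap Φ T ≤ ρ) (hlt : ρ * B.card ≤ 1 / 2) :
    ∃ r : ℝ, 0 < r ∧ r < 1 ∧ ∀ n, gap Φ n ≤ 2 * r ^ n := by
  have hρ0 : 0 ≤ ρ := (gap_nonneg R T).trans hρ
  have hκ : 0 ≤ ρ * B.card := by positivity
  have h1 : ∀ k : ℕ, gap Φ (k * T) ≤ (1 / 2 : ℝ) ^ k := by
    intro k
    induction k with
    | zero => simpa using gap_le_one (Φ := Φ) 0
    | succ k ih =>
      have h3 := gap_add R T B hB hρ (k * T)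
      rw [Nat.succ_mul, pow_succ]
      calc gap Φ (k * T + T) ≤ ρ * B.card * gap Φ (k * T) := h3
        _ ≤ 1 / 2 * gap Φ (k * T) := mul_le_mul_of_nonneg_right hlt (gap_nonneg R _)
        _ ≤ 1 / 2 * (1 / 2 : ℝ) ^ k := mul_le_mul_of_nonneg_left ih (by norm_num)
        _ = _ := by ring
  have hT0 : (0 : ℝ) < T := by exact_mod_cast hT
  set r : ℝ := (1 / 2 : ℝ) ^ ((1 : ℝ) / T) with hr
  have hr0 : 0 < r := Real.rpow_pos_of_pos (by norm_num) _
  have hr1 : r < 1 := Real.rpow_lt_one (by norm_num) (by norm_num) (by positivity)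
  have hrT : r ^ T = 1 / 2 := by
    rw [hr, ← Real.rpow_natCast, ← Real.rpow_mul (by norm_num), one_div_mul_cancel hT0.ne',
      Real.rpow_one]
  refine ⟨r, hr0, hr1, fun n => ?_⟩
  have h2 : gap Φ n ≤ (1 / 2 : ℝ) ^ (n / T) :=
    (gap_anti R (Nat.div_mul_le_self n T)).trans (h1 (n / T))
  refine h2.trans ?_
  have h3 : r ^ n = (1 / 2 : ℝ) ^ (n / T) * r ^ (n % T) := by
    conv_lhs => rw [← Nat.div_add_mod n T, pow_add, pow_mul, hrT]
  have h4 : (1 / 2 : ℝ) ≤ r ^ (n % T) := by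
    rw [← hrT]
    exact pow_le_pow_of_le_one hr0.le hr1.le (Nat.mod_lt _ hT).le
  rw [h3]
  have h5 : 0 ≤ (1 / 2 : ℝ) ^ (n / T) := by positivity
  nlinarith

theorem expErgodic_of_gap {Φ : PCA d Bool} (R : Rep Φ) {r : ℝ} (hr0 : 0 < r) (hr1 : r < 1)
    (h : ∀ n, gap Φ n ≤ 2 * r ^ n) :
    ∃ π : Measure (Config d Bool), ExpErgodic Φ π := by
  have hlim : Tendsto (gap Φ) atTop (𝓝 0) := by
    have h1 := (tendsto_pow_atTop_nhds_zero_of_lt_one hr0.le hr1).const_mul 2
    rw [mul_zero] at h1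
    exact squeeze_zero (gap_nonneg R) h h1
  obtain ⟨π, hπ⟩ := ergodic_of_gap R hlim
  refine ⟨π, hπ, r, hr0, hr1, fun μ hμ A u n => ?_⟩
  have hp := hπ.prob
  have hinv : Φ.evolve^[n] π = π := by
    induction n with
    | zero => rfl
    | succ n ih => rw [Function.iterate_succ_apply', ih, hπ.invariant]
  have k1 := evolve_close R μ A u n
  have k2 := evolve_close R π A u n
  rw [hinv] at k2
  have k3 : (A.card : ℝ) * gap Φ n ≤ A.card * (2 * r ^ n) :=
    mul_le_mul_of_nonneg_left (h n) (Nat.cast_nonneg _)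
  rw [abs_le] at k1 k2 ⊢
  constructor <;> linarith [k1.1, k1.2, k2.1, k2.2]

/-- The choice of the parameters. -/
theorem exists_L (R d : ℕ) {η : ℝ} (hη : 0 < η) :
    ∃ L : ℝ, 1 ≤ L ∧ ∀ y : ℝ, L ≤ y → Real.exp (-y) * ((4 * R + 1) * y ^ 2) ^ d ≤ η := by
  have h1 := (Real.tendsto_pow_mul_exp_neg_atTop_nhds_zero (2 * d)).const_mul ((4 * (R : ℝ) + 1) ^ d)
  rw [mul_zero] at h1
  obtain ⟨L, hL⟩ := (h1.eventually_le_const hη).exists_forall_of_atTop
  refine ⟨max L 1, le_max_right _ _, fun y hy => ?_⟩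
  have := hL y ((le_max_left _ _).trans hy)
  calc Real.exp (-y) * ((4 * R + 1) * y ^ 2) ^ d = (4 * (R : ℝ) + 1) ^ d * (y ^ (2 * d) * Real.exp (-y)) := by
        rw [mul_pow, ← pow_mul]; ring
    _ ≤ η := this

end Pool.Agent.Y992.ND
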