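import Mathlib
import Pool.Agent.Y992.ND.Erg

set_option autoImplicit false

open MeasureTheory ProbabilityTheory Filter Topology
open scoped ENNReal Pointwise

/-!
# Exchange of the two symbols
-/

namespace Pool.Agent.Y992.ND

open Pool.Agent.H443R3 Pool.Agent.H443R3.Attractive

variable {d : ℕ} {N : Finset (Site d)} {m : (N → Bool) → Bool} {θ : Bool → PMF Bool}

/-- Exchange the symbols in a configuration. -/
def fl (x : Config d Bool) : Config d Bool := fun i => !x i

theorem fl_fl (x : Config d Bool) : fl (fl x) = x := by
  funext i; unfold fl; simp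

theorem measurable_fl : Measurable (fl : Config d Bool → Config d Bool) := by
  rw [measurable_pi_iff]
  intro i
  exact (Measurable.of_discrete (f := fun b : Bool => !b)).comp (measurable_pi_apply i)

/-- The dual rule. -/
def dualRule (m : (N → Bool) → Bool) (u : N → Bool) : Bool := !m (fun n => !u n)

/-- The dual noise. -/
noncomputable def dualNoise (θ : Bool → PMF Bool) (a : Bool) : PMF Bool := (θ (!a)).map (fun b => !b)

theorem dualRule_mono (hm : Monotone m) : Monotone (dualRule m) := by
  intro u v huv
  unfold dualRule
  have h : (fun n => !v n) ≤ (fun n => !u n) := by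
    intro n
    have := huv n
    cases hu : u n <;> cases hv : v n <;> simp_all
  have := hm h
  cases h1 : m (fun n => !v n) <;> cases h2 : m (fun n => !u n) <;> simp_all

theorem dualNoise_apply (a b : Bool) : dualNoise θ a b = θ (!a) (!b) := by
  unfold dualNoise
  rw [PMF.map_apply, tsum_fintype, Fintype.sum_bool]
  cases b <;> simp

theorem ca_dual (t : ℕ) (x : Config d Bool) (i : Site d) :
    (CA N (dualRule m))^[t] (fl x) i = !((CA N m)^[t] x i) := by
  induction t generalizing x with
  | zero => rfl
  | succ t ih =>
    have e1 : CA N (dualRule m) (fl x) = fl (CA N m x) := by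
      funext j
      unfold CA fl dualRule
      simp
    rw [Function.iterate_succ_apply, Function.iterate_succ_apply, e1, ih]

theorem step_dual (x : Config d Bool) :
    (noisy N (dualRule m) (dualNoise θ)).step (fl x) = ((noisy N m θ).step x).map fl := by
  have h := Measure.infinitePi_map_pi
    (μ := fun i : Site d => ((noisy N m θ).rule ((noisy N m θ).pattern x i)).toMeasure)
    (f := fun (_ : Site d) (b : Bool) => !b) (fun _ => Measurable.of_discrete)
  have h2 : (fun (w : Config d Bool) (i : Site d) => !w i) = fl := rfl
  unfold PCA.step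
  rw [← h2]
  refine Eq.trans ?_ h.symm
  congr 1
  funext i
  rw [PMF.toMeasure_map (p := (noisy N m θ).rule ((noisy N m θ).pattern x i))
    (f := fun b : Bool => !b) Measurable.of_discrete]
  congr 1
  show dualNoise θ (dualRule m (fun n => !x (i + n))) = (θ (m (fun n => x (i + n)))).map (fun b => !b)
  unfold dualNoise dualRule
  simp

theorem evolve_dual (ν : Measure (Config d Bool)) :
    (noisy N (dualRule m) (dualNoise θ)).evolve (ν.map fl) = ((noisy N m θ).evolve ν).map fl := by
  ext s hs
  have hmeas : Measurable (fun y : Config d Bool =>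
      (noisy N (dualRule m) (dualNoise θ)).step y s) :=
    (Measure.measurable_coe hs).comp (PCA.measurable_step _)
  unfold PCA.evolve
  rw [Measure.map_apply measurable_fl hs,
    Measure.bind_apply hs (PCA.measurable_step _).aemeasurable,
    Measure.bind_apply (measurable_fl hs) (PCA.measurable_step _).aemeasurable,
    lintegral_map hmeas measurable_fl]
  apply lintegral_congr
  intro x
  rw [step_dual, Measure.map_apply measurable_fl hs]

theorem evolve_iterate_dual (ν : Measure (Config d Bool)) (n : ℕ) :
    (noisy N (dualRule m) (dualNoise θ)).evolve^[n] (ν.map fl) =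
      ((noisy N m θ).evolve^[n] ν).map fl := by
  induction n with
  | zero => rfl
  | succ n ih => rw [Function.iterate_succ_apply', Function.iterate_succ_apply', ih, evolve_dual]

theorem map_fl_fl (ν : Measure (Config d Bool)) : (ν.map fl).map fl = ν := by
  rw [Measure.map_map measurable_fl measurable_fl]
  have : (fl ∘ fl : Config d Bool → Config d Bool) = id := by
    funext x; exact fl_fl x
  rw [this, Measure.map_id]

theorem fl_preimage_cyl (A : Finset (Site d)) (u : A → Bool) :
    fl ⁻¹' (cyl A u) = cyl A (fun a => !u a) := by
  ext x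
  simp only [Set.mem_preimage, cyl, Set.mem_ofPred_eq, fl]
  constructor
  · intro h a
    rw [← h a]; simp
  · intro h a
    rw [h a]; simp

/-- Transfer of exponential ergodicity. -/
theorem expErgodic_dual {π : Measure (Config d Bool)}
    (h : ExpErgodic (noisy N (dualRule m) (dualNoise θ)) π) :
    ExpErgodic (noisy N m θ) (π.map fl) := by
  have hp := h.erg.prob
  have hp' : IsProbabilityMeasure (π.map fl) := Measure.isProbabilityMeasure_map measurable_fl.aemeasurable
  obtain ⟨r, hr0, hr1, hr⟩ := h.rate
  have key : ∀ μ : Measure (Config d Bool), IsProbabilityMeasure μ →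
      ∀ (A : Finset (Site d)) (u : A → Bool) (n : ℕ),
      |(((noisy N m θ).evolve^[n] μ) (cyl A u)).toReal - ((π.map fl) (cyl A u)).toReal| ≤
        4 * A.card * r ^ n := by
    intro μ hμ A u n
    have hμ' : IsProbabilityMeasure (μ.map fl) := Measure.isProbabilityMeasure_map measurable_fl.aemeasurable
    have h1 := hr (μ.map fl) hμ' A (fun a => !u a) n
    rw [evolve_iterate_dual, Measure.map_apply measurable_fl (measurableSet_cyl A _),
      fl_preimage_cyl] at h1
    rw [Measure.map_apply measurable_fl (measurableSet_cyl A _), fl_preimage_cyl]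
    simpa using h1
  refine ⟨ergodicWith_of_cylinders _ _ ?_, r, hr0, hr1, key⟩
  intro μ hμ A u
  have hlim : Tendsto (fun n => (((noisy N m θ).evolve^[n] μ) (cyl A u)).toReal) atTop
      (𝓝 ((π.map fl) (cyl A u)).toReal) := by
    rw [tendsto_iff_dist_tendsto_zero]
    have h1 := (tendsto_pow_atTop_nhds_zero_of_lt_one hr0.le hr1).const_mul (4 * (A.card : ℝ))
    rw [mul_zero] at h1
    refine squeeze_zero (fun _ => dist_nonneg) (fun n => ?_) h1
    rw [Real.dist_eq]
    exact key μ hμ A u n
  have hpn : ∀ n, IsProbabilityMeasure ((noisy N m θ).evolve^[n] μ) := fun n =>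
    (noisy N m θ).isProbabilityMeasure_iterate μ n
  have := ENNReal.tendsto_ofReal hlim
  rw [ENNReal.ofReal_toReal (measure_ne_top _ _)] at this
  refine this.congr (fun n => ?_)
  exact ENNReal.ofReal_toReal (measure_ne_top _ _)

end Pool.Agent.Y992.ND
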