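import Mathlib
import Pool.Agent.Y992.ND.Erg

set_option autoImplicit false

open MeasureTheory ProbabilityTheory Filter Topology
open scoped ENNReal Pointwise

/-!
# The main theorem for islands of `true`
-/

namespace Pool.Agent.Y992.ND

open Pool.Agent.H443R3 Pool.Agent.H443R3.Attractive

variable {d : ℕ} {N : Finset (Site d)} {m : (N → Bool) → Bool}

theorem cusp_true (hm : Monotone m) {x0 : Config d Bool} (F : Finset (Site d))
    (hF : ∀ i, x0 i = true → i ∈ F) (hs : ∀ t, ∃ i, (CA N m)^[t] x0 i = true)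
    {η : ℝ} (hη : 0 < η) :
    ∃ c : ℝ, 0 < c ∧ ∀ (θ : Bool → PMF Bool) (ε δ : ℝ), θ false true = ENNReal.ofReal ε →
      θ true false = ENNReal.ofReal δ → 0 < ε → 0 ≤ δ → ε + δ ≤ 1 →
      δ ≤ c * ε ^ (F.card * (4 * d + 2)) →
      ∃ π : Measure (Config d Bool), ExpErgodic (noisy N m θ) π ∧
        ∀ i, 1 - η ≤ (π {x | x i = true}).toReal := by
  obtain ⟨R, hR⟩ := exists_box N
  set η' : ℝ := min (1 / 4) (η / 2) with hη'
  have hη0 : 0 < η' := lt_min (by norm_num) (by linarith)
  have hη1 : η' ≤ 1 / 4 := min_le_left _ _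
  have hη2 : η' ≤ η / 2 := min_le_right _ _
  obtain ⟨L, hL1, hL⟩ := exists_L R d hη0
  set M : ℝ := 2 * (4 * (R : ℝ) + 1) ^ (2 * d) * (2 * L) ^ (4 * d + 2) with hM
  have hM0 : 0 < M := by positivity
  refine ⟨η' / M, by positivity, fun θ ε δ h1 h2 hε hδ h hc => ?_⟩
  set a : ℝ := ε ^ F.card / 2 with ha
  have hε1 : ε ≤ 1 := by linarith
  have hp0 : 0 < ε ^ F.card := by positivity
  have hp1 : ε ^ F.card ≤ 1 := pow_le_one₀ hε.le hε1
  have ha0 : 0 < a := by positivity
  have ha1 : a ≤ 1 / 2 := by rw [ha]; linarith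
  have ha2 : a ≤ ε ^ F.card := by rw [ha]; linarith
  set y : ℝ := L / a with hy
  have hyL : L ≤ y := by
    rw [hy, le_div_iff₀ ha0]
    nlinarith
  have hy1 : 1 ≤ y := hL1.trans hyL
  set T : ℕ := ⌈L / a ^ 2⌉₊ with hT
  have hLa : 1 ≤ L / a ^ 2 := by
    rw [le_div_iff₀ (by positivity)]
    nlinarith
  have hT1 : L / a ^ 2 ≤ T := Nat.le_ceil _
  have hT2 : (T : ℝ) ≤ 2 * y ^ 2 := by
    have h3 : (T : ℝ) < L / a ^ 2 + 1 := Nat.ceil_lt_add_one (by linarith)
    have h4 : L / a ^ 2 ≤ y ^ 2 := by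
      have h5 : y ^ 2 = L ^ 2 / a ^ 2 := div_pow L a 2
      rw [h5]
      exact div_le_div_of_nonneg_right (by nlinarith) (by positivity)
    linarith
  have hTone : (1 : ℝ) ≤ T := hLa.trans hT1
  have hTnat : 1 ≤ T := by exact_mod_cast hTone
  set K : ℕ := (2 * (R * T) + 1) ^ d with hK
  have hR0 : (0 : ℝ) ≤ R := Nat.cast_nonneg _
  set Q : ℝ := ((4 * R + 1) * y ^ 2) ^ d with hQ
  have hKQ : (K : ℝ) ≤ Q := by
    rw [hK, hQ]
    push_cast
    apply pow_le_pow_left₀ (by positivity)
    have : (R : ℝ) * T ≤ R * (2 * y ^ 2) := mul_le_mul_of_nonneg_left hT2 hR0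
    nlinarith
  have hK1 : (1 : ℝ) ≤ K := by
    have : 1 ≤ K := Nat.one_le_pow _ _ (by omega)
    exact_mod_cast this
  have hQ0 : 0 ≤ Q := by positivity
  -- the first term
  have t1 : (1 - a) ^ T * K ≤ η' := by
    have h3 : (1 - a) ^ T ≤ Real.exp (-y) := by
      calc (1 - a) ^ T ≤ (Real.exp (-a)) ^ T :=
            pow_le_pow_left₀ (by linarith) (Real.one_sub_le_exp_neg a) T
        _ = Real.exp (-(a * T)) := by rw [← Real.exp_nat_mul]; congr 1; ring
        _ ≤ Real.exp (-y) := by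
            apply Real.exp_le_exp.2
            have : y ≤ a * T := by
              calc y = a * (L / a ^ 2) := by rw [hy]; field_simp
                _ ≤ a * T := mul_le_mul_of_nonneg_left hT1 ha0.le
            linarith
    calc (1 - a) ^ T * K ≤ Real.exp (-y) * Q :=
          mul_le_mul h3 hKQ (by positivity) (Real.exp_pos _).le
      _ ≤ η' := hL y hyL
  -- the second term
  have t2 : T * (K * δ) * K ≤ η' := by
    have hεp : 0 < ε ^ (F.card * (4 * d + 2)) := by positivity
    have h3 : y ^ (4 * d + 2) = (2 * L) ^ (4 * d + 2) / ε ^ (F.card * (4 * d + 2)) := by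
      have : y = 2 * L / ε ^ F.card := by rw [hy, ha]; field_simp
      rw [this, div_pow, ← pow_mul]
    calc T * (K * δ) * K ≤ (2 * y ^ 2) * (Q * δ) * Q := by gcongr
      _ = (2 * (4 * (R : ℝ) + 1) ^ (2 * d) * y ^ (4 * d + 2)) * δ := by
          rw [hQ, mul_pow, ← pow_mul]
          have e1 : y ^ (4 * d + 2) = y ^ 2 * y ^ (2 * d) * y ^ (2 * d) := by
            rw [← pow_add, ← pow_add]; congr 1; ring
          have e2 : (4 * (R : ℝ) + 1) ^ (2 * d) = (4 * (R : ℝ) + 1) ^ d * (4 * (R : ℝ) + 1) ^ d := by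
            rw [← pow_add]; congr 1; ring
          rw [e1, e2]
          ring
      _ ≤ (2 * (4 * (R : ℝ) + 1) ^ (2 * d) * y ^ (4 * d + 2)) *
            (η' / M * ε ^ (F.card * (4 * d + 2))) := by gcongr
      _ = η' := by
          rw [h3, hM]
          field_simp
  have hρ1 : ((1 - a) ^ T + T * (K * δ)) * K ≤ 2 * η' := by
    rw [add_mul]; linarith
  have hρ2 : (1 - a) ^ T + T * (K * δ) ≤ 2 * η' := by
    have h3 : 0 ≤ (1 - a) ^ T + T * (K * δ) := by
      have : 0 ≤ (1 - a) ^ T := pow_nonneg (by linarith) _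
      positivity
    calc (1 - a) ^ T + T * (K * δ) ≤ ((1 - a) ^ T + T * (K * δ)) * K :=
          le_mul_of_one_le_right h3 hK1
      _ ≤ _ := hρ1
  have hKδ : (K : ℝ) * δ ≤ 1 / 4 := by
    have h3 : 0 ≤ (K : ℝ) * δ := by positivity
    calc (K : ℝ) * δ ≤ T * (K * δ) := le_mul_of_one_le_left h3 hTone
      _ ≤ T * (K * δ) * K := le_mul_of_one_le_right (by positivity) hK1
      _ ≤ 1 / 4 := t2.trans hη1
  have hcard : ∀ t ≤ T, ((fun B => B + N)^[t] ({0} : Finset (Site d))).card ≤ K := by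
    intro t ht
    rw [hK, ← card_box (d := d) (R * T)]
    exact Finset.card_le_card ((cone_subset hR t).trans (box_mono (Nat.mul_le_mul_left R ht)))
  have key := many_steps (θ := θ) hm hε.le hδ h h1 h2 F hF (T := T) (K := K) hs hcard ha2 ha0.le
    (by linarith) (by linarith) bot T 0 (by omega)
  have key' : 1 - ((noisy N m θ).op^[T] (e 0) bot).toReal ≤ (1 - a) ^ T + T * (K * δ) := key
  set Rr := rep hm hε.le hδ h h1 h2 with hRr
  have hdep : DependsOn ((noisy N m θ).op^[T] (e 0)) ((box (R * T) : Finset (Site d)) :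
      Set (Site d)) := by
    have h3 := (noisy N m θ).op_iterate_dependsOn T (e_dependsOn (0 : Site d))
    intro x x' hxx
    apply h3
    intro i hi
    exact hxx i (cone_subset hR T hi)
  have hgap : gap (noisy N m θ) T ≤ (1 - a) ^ T + T * (K * δ) := by
    have htop : ((noisy N m θ).op^[T] (e 0) top).toReal ≤ 1 := by
      have := ENNReal.toReal_mono ENNReal.one_ne_top
        ((noisy N m θ).op_iterate_le_one (e_le_one 0) T top)
      simpa using this
    unfold gap
    linarith
  obtain ⟨r, hr0, hr1, hr⟩ := gap_exp Rr hTnat (box (R * T)) hdep hgap (by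
    rw [card_box]
    have : (((2 * (R * T) + 1) ^ d : ℕ) : ℝ) = K := by rw [hK]
    rw [this]
    linarith)
  obtain ⟨π, hπ⟩ := expErgodic_of_gap Rr hr0 hr1 hr
  refine ⟨π, hπ, fun i => ?_⟩
  have hprob := hπ.erg.prob
  have hinv : (noisy N m θ).evolve^[T] π = π := by
    have : ∀ n, (noisy N m θ).evolve^[n] π = π := by
      intro n
      induction n with
      | zero => rfl
      | succ n ih => rw [Function.iterate_succ_apply', ih, hπ.erg.invariant]
    exact this T
  have e1 : ∫⁻ x, e i x ∂π = π {x | x i = true} := by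
    have hms : MeasurableSet {x : Config d Bool | x i = true} :=
      (MeasurableSet.singleton true).preimage (measurable_pi_apply i)
    rw [← lintegral_indicator_one hms]
    apply lintegral_congr
    intro x
    by_cases hx : x i = true
    · simp [e, Set.indicator, hx]
    · simp [e, Set.indicator, hx]
  have e2 := (noisy N m θ).lintegral_iterate π T (e_dependsOn i)
  rw [hinv, e1] at e2
  have e3 : (noisy N m θ).op^[T] (e 0) bot ≤ π {x | x i = true} := by
    rw [e2]
    have h4 : (noisy N m θ).op^[T] (e i) bot = (noisy N m θ).op^[T] (e 0) bot :=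
      op_iterate_e i T false
    calc (noisy N m θ).op^[T] (e 0) bot = ∫⁻ _, (noisy N m θ).op^[T] (e i) bot ∂π := by
          rw [h4]; simp
      _ ≤ _ := lintegral_mono fun x => inc_iterate Rr (e_dependsOn i) (e_inc i) T _ _ (bot_le x)
  have e4 := ENNReal.toReal_mono (measure_ne_top π _) e3
  linarith

end Pool.Agent.Y992.ND
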