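import Mathlib
import Pool.Agent.Y992.ND.Main
import Pool.Agent.Y992.ND.Flip

set_option autoImplicit false

open MeasureTheory ProbabilityTheory Filter Topology
open scoped ENNReal Pointwise

/-!
# Islands of both symbols, symmetric rules
-/

namespace Pool.Agent.Y992.ND

open Pool.Agent.H443R3 Pool.Agent.H443R3.Attractive
open Pool.Agent.Results.MP_417bbc_pr.BiasedNoiseErgodic (noise errorLevel)

variable {d : ℕ} {N : Finset (Site d)} {m : (N → Bool) → Bool}

theorem not_erodes_dual (h : ¬ Erodes N m false) : ¬ Erodes N (dualRule m) true := by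
  intro h1
  apply h
  intro x hx
  obtain ⟨t, ht⟩ := h1 (fl x) (by
    have : {i | fl x i = true} = {i | x i = false} := by
      ext i; simp [fl]
    rw [this]; exact hx)
  refine ⟨t, fun i => ?_⟩
  have := ht i
  rw [ca_dual] at this
  simpa using this

theorem survive (h : ¬ Erodes N m true) : ∃ (x0 : Config d Bool) (F : Finset (Site d)),
    (∀ i, x0 i = true → i ∈ F) ∧ ∀ t, ∃ i, (CA N m)^[t] x0 i = true := by
  unfold Erodes at h
  push Not at h
  obtain ⟨x, hx, h⟩ := h
  refine ⟨x, hx.toFinset, fun i hi => by simpa using hi, fun t => ?_⟩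
  obtain ⟨i, hi⟩ := h t
  exact ⟨i, by simpa using hi⟩

/-- The cusp theorem for both symbols. -/
theorem cusp (hm : Monotone m) (b : Bool) (hb : ¬ Erodes N m b) {η : ℝ} (hη : 0 < η) :
    ∃ c : ℝ, 0 < c ∧ ∃ K : ℕ, ∀ θ : Bool → PMF Bool, 0 < (θ (!b) b).toReal →
      (θ (!b) b).toReal + (θ b (!b)).toReal ≤ 1 →
      (θ b (!b)).toReal ≤ c * (θ (!b) b).toReal ^ K →
      ∃ π : Measure (Config d Bool), ExpErgodic (noisy N m θ) π ∧
        ∀ i, 1 - η ≤ (π {x | x i = b}).toReal := by
  cases b with
  | true =>
    obtain ⟨x0, F, hF, hs⟩ := survive hb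
    obtain ⟨c, hc, h⟩ := cusp_true hm F hF hs hη
    refine ⟨c, hc, F.card * (4 * d + 2), fun θ h0 h1 h2 => ?_⟩
    exact h θ _ _ (ENNReal.ofReal_toReal (PMF.apply_ne_top _ _)).symm
      (ENNReal.ofReal_toReal (PMF.apply_ne_top _ _)).symm h0 ENNReal.toReal_nonneg h1 h2
  | false =>
    obtain ⟨x0, F, hF, hs⟩ := survive (not_erodes_dual hb)
    obtain ⟨c, hc, h⟩ := cusp_true (dualRule_mono hm) F hF hs hη
    refine ⟨c, hc, F.card * (4 * d + 2), fun θ h0 h1 h2 => ?_⟩
    obtain ⟨π, hπ, hd⟩ := h (dualNoise θ) (θ true false).toReal (θ false true).toReal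
      (by rw [dualNoise_apply]; exact (ENNReal.ofReal_toReal (PMF.apply_ne_top _ _)).symm)
      (by rw [dualNoise_apply]; exact (ENNReal.ofReal_toReal (PMF.apply_ne_top _ _)).symm)
      h0 ENNReal.toReal_nonneg h1 h2
    refine ⟨π.map fl, expErgodic_dual hπ, fun i => ?_⟩
    have hms : MeasurableSet {x : Config d Bool | x i = false} :=
      (MeasurableSet.singleton false).preimage (measurable_pi_apply i)
    rw [Measure.map_apply measurable_fl hms]
    have e1 : (fl ⁻¹' {x : Config d Bool | x i = false}) = {x | x i = true} := by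
      ext x; simp [fl]
    rw [e1]
    exact hd i

theorem exists_noise (b : Bool) {ε δ : ℝ} (hε : 0 < ε) (hε1 : ε ≤ 1 / 2) (hδ : 0 < δ)
    (hδε : δ ≤ ε) : ∃ θ : Bool → PMF Bool, (∀ a c, 0 < θ a c) ∧ errorLevel θ ≤ ε ∧
      (θ (!b) b).toReal = ε ∧ (θ b (!b)).toReal = δ := by
  have h1 : ENNReal.ofReal ε ≤ 1 := by
    rw [← ENNReal.ofReal_one]; exact ENNReal.ofReal_le_ofReal (by linarith)
  have h2 : ENNReal.ofReal δ ≤ 1 := by
    rw [← ENNReal.ofReal_one]; exact ENNReal.ofReal_le_ofReal (by linarith)
  have gen : ∀ (α β : ℝ) (hα : 0 < α) (hα1 : α ≤ 1 / 2) (hβ : 0 < β) (hβ1 : β ≤ 1 / 2)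
      (g1 : ENNReal.ofReal α ≤ 1) (g2 : ENNReal.ofReal β ≤ 1),
      (∀ a c, 0 < noise α β g1 g2 a c) ∧ errorLevel (noise α β g1 g2) ≤ max α β ∧
      (noise α β g1 g2 false true).toReal = α ∧ (noise α β g1 g2 true false).toReal = β := by
    intro α β hα hα1 hβ hβ1 g1 g2
    have v1 : noise α β g1 g2 false true = ENNReal.ofReal α := by simp [noise]
    have v2 : noise α β g1 g2 false false = ENNReal.ofReal (1 - α) := by
      rw [ENNReal.ofReal_sub _ hα.le, ENNReal.ofReal_one]; simp [noise]
    have v3 : noise α β g1 g2 true true = ENNReal.ofReal (1 - β) := by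
      rw [ENNReal.ofReal_sub _ hβ.le, ENNReal.ofReal_one]; simp [noise]
    have v4 : noise α β g1 g2 true false = ENNReal.ofReal β := by simp [noise]
    refine ⟨?_, ?_, ?_, ?_⟩
    · intro a c
      cases a <;> cases c
      · rw [v2, ENNReal.ofReal_pos]; linarith
      · rw [v1, ENNReal.ofReal_pos]; exact hα
      · rw [v4, ENNReal.ofReal_pos]; exact hβ
      · rw [v3, ENNReal.ofReal_pos]; linarith
    · unfold errorLevel
      rw [v2, v3, ENNReal.toReal_ofReal (by linarith), ENNReal.toReal_ofReal (by linarith)]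
      apply max_le_max <;> linarith
    · rw [v1, ENNReal.toReal_ofReal hα.le]
    · rw [v4, ENNReal.toReal_ofReal hβ.le]
  cases b with
  | true =>
    obtain ⟨k1, k2, k3, k4⟩ := gen ε δ hε hε1 hδ (by linarith) h1 h2
    exact ⟨noise ε δ h1 h2, k1, by rwa [max_eq_left hδε] at k2, k3, k4⟩
  | false =>
    obtain ⟨k1, k2, k3, k4⟩ := gen δ ε hδ (by linarith) hε hε1 h2 h1
    exact ⟨noise δ ε h2 h1, k1, by rwa [max_eq_right hδε] at k2, k4, k3⟩

/-- A monotone automaton in which some finite island survives is ergodic for suitable arbitrarily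
small noise. -/
theorem small_noise_ergodic (hm : Monotone m) (b : Bool) (hb : ¬ Erodes N m b) {ε₀ : ℝ}
    (hε₀ : 0 < ε₀) : ∃ θ : Bool → PMF Bool, (∀ a c, 0 < θ a c) ∧ errorLevel θ ≤ ε₀ ∧
      ∃ π : Measure (Config d Bool), ErgodicWith (noisy N m θ) π := by
  obtain ⟨c, hc, K, h⟩ := cusp hm b hb one_pos
  set ε : ℝ := min ε₀ (1 / 2) with hε
  have hε0 : 0 < ε := lt_min hε₀ (by norm_num)
  have hε2 : ε ≤ 1 / 2 := min_le_right _ _
  set δ : ℝ := min ε (c * ε ^ K) with hδ
  have hδ0 : 0 < δ := lt_min hε0 (by positivity)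
  have hδ1 : δ ≤ ε := min_le_left _ _
  obtain ⟨θ, k1, k2, k3, k4⟩ := exists_noise b hε0 hε2 hδ0 hδ1
  obtain ⟨π, hπ, -⟩ := h θ (by rw [k3]; exact hε0) (by rw [k3, k4]; linarith)
    (by rw [k3, k4]; exact min_le_right _ _)
  exact ⟨θ, k1, k2.trans (min_le_left _ _), π, hπ.erg⟩

/-! ### Symmetric rules -/

/-- The island of all the sums of subsets of the neighbourhood. -/
def sums (N : Finset (Site d)) : Finset (Site d) := N.powerset.image (fun S => ∑ n ∈ S, n)

theorem sums_flip {i : Site d} (hi : i ∈ sums N) {n : Site d} (hn : n ∈ N) :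
    i + n ∈ sums N ∨ i - n ∈ sums N := by
  unfold sums at hi ⊢
  simp only [Finset.mem_image, Finset.mem_powerset] at hi ⊢
  obtain ⟨S, hS, rfl⟩ := hi
  by_cases h : n ∈ S
  · right
    refine ⟨S.erase n, (Finset.erase_subset _ _).trans hS, ?_⟩
    rw [← Finset.add_sum_erase S (fun n => n) h]
    abel
  · left
    refine ⟨insert n S, Finset.insert_subset hn hS, ?_⟩
    rw [Finset.sum_insert h, add_comm]

theorem zero_mem_sums : (0 : Site d) ∈ sums N := by
  unfold sums
  rw [Finset.mem_image]
  exact ⟨∅, by simp, by simp⟩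

/-- If the rule gives `true` as soon as for each `n` in the neighbourhood one of the sites `n`, `-n`
shows `true`, then the island `sums N` survives. -/
theorem not_erodes_true (hm : Monotone m) (hN : ∀ n ∈ N, -n ∈ N)
    (h : ∀ u : N → Bool, (∀ n : N, u n = true ∨ u ⟨-n.1, hN n.1 n.2⟩ = true) → m u = true) :
    ¬ Erodes N m true := by
  classical
  intro he
  set x0 : Config d Bool := fun i => decide (i ∈ sums N) with hx0
  obtain ⟨t, ht⟩ := he x0 (by
    have : {i | x0 i = true} = (sums N : Set (Site d)) := by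
      ext i; simp [hx0]
    rw [this]; exact Finset.finite_toSet _)
  have h1 : x0 ≤ CA N m x0 := by
    intro i
    cases hi : x0 i with
    | false => exact Bool.false_le _
    | true =>
      have hi' : i ∈ sums N := by simpa [hx0] using hi
      have : CA N m x0 i = true := by
        apply h
        intro n
        rcases sums_flip hi' n.2 with h2 | h2
        · left; simpa [hx0] using h2
        · right
          rw [sub_eq_add_neg] at h2
          simpa [hx0] using h2
      rw [this]
  have h2 : ∀ t, x0 ≤ (CA N m)^[t] x0 := by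
    intro t
    induction t with
    | zero => exact le_rfl
    | succ t ih =>
      rw [Function.iterate_succ_apply']
      refine h1.trans ?_
      intro i
      apply hm
      intro n
      exact ih (i + n)
  have h3 := h2 t 0
  rw [ht 0] at h3
  have h4 : x0 0 = true := by simp [hx0, zero_mem_sums]
  rw [h4] at h3
  simp only [Bool.not_true] at h3
  exact absurd h3 Bool.not_true_le_false

/-- Monotone rules which are invariant under the reflection of space and under the exchange of the
two symbols do not erode the islands of either symbol. -/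
theorem not_erodes_symm (hm : Monotone m) (hN : ∀ n ∈ N, -n ∈ N)
    (hr : ∀ u : N → Bool, m (fun n => u ⟨-n.1, hN n.1 n.2⟩) = m u)
    (hd : ∀ u : N → Bool, m (fun n => !u n) = !m u) (b : Bool) : ¬ Erodes N m b := by
  have key : ∀ u : N → Bool, (∀ n : N, u n = true ∨ u ⟨-n.1, hN n.1 n.2⟩ = true) →
      m u = true := by
    intro u hu
    have h1 : (fun n : N => !u ⟨-n.1, hN n.1 n.2⟩) ≤ u := by
      intro n
      rcases hu n with h | h
      · rw [h]; exact Bool.le_true _
      · show (!u ⟨-n.1, hN n.1 n.2⟩) ≤ u n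
        rw [h]; exact Bool.false_le _
    have h2 := hm h1
    rw [hd (fun n => u ⟨-n.1, hN n.1 n.2⟩), hr] at h2
    cases hmu : m u with
    | true => rfl
    | false =>
      rw [hmu] at h2
      exact absurd h2 (by decide)
  have hT := not_erodes_true hm hN key
  cases b with
  | true => exact hT
  | false =>
    intro he
    apply hT
    have e1 : dualRule m = m := by
      funext u
      unfold dualRule
      rw [hd]
      simp
    intro x hx
    obtain ⟨t, ht⟩ := he (fl x) (by
      have : {i | fl x i = false} = {i | x i = true} := by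
        ext i; simp [fl]
      rw [this]; exact hx)
    refine ⟨t, fun i => ?_⟩
    have h2 := ca_dual (N := N) (m := m) t x i
    rw [e1, ht i] at h2
    simpa using h2.symm

/-- The majority rule of a neighbourhood with an odd number of sites. -/
def majority (N : Finset (Site d)) (u : N → Bool) : Bool :=
  decide (N.card < 2 * (Finset.univ.filter (fun n : N => u n = true)).card)

theorem majority_mono : Monotone (majority N) := by
  intro u v h
  unfold majority
  rw [Bool.le_iff_imp]
  simp only [decide_eq_true_eq]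
  intro h3
  refine h3.trans_le (Nat.mul_le_mul_left 2 (Finset.card_le_card ?_))
  intro n hn
  rw [Finset.mem_filter] at hn ⊢
  refine ⟨hn.1, ?_⟩
  have := h n
  rw [hn.2] at this
  exact Bool.eq_true_of_true_le this

theorem majority_refl (hN : ∀ n ∈ N, -n ∈ N) (u : N → Bool) :
    majority N (fun n => u ⟨-n.1, hN n.1 n.2⟩) = majority N u := by
  unfold majority
  have : (Finset.univ.filter (fun n : N => u ⟨-n.1, hN n.1 n.2⟩ = true)).card =
      (Finset.univ.filter (fun n : N => u n = true)).card := by
    apply Finset.card_bij (fun n _ => (⟨-n.1, hN n.1 n.2⟩ : N))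
    · intro n hn
      simpa using hn
    · intro n _ n' _ h
      simp only [Subtype.mk.injEq, neg_inj] at h
      exact Subtype.ext h
    · intro n hn
      refine ⟨⟨-n.1, hN n.1 n.2⟩, ?_, ?_⟩
      · simp only [Finset.mem_filter, Finset.mem_univ, true_and] at hn ⊢
        have e1 : (⟨- -n.1, hN _ (hN n.1 n.2)⟩ : N) = n := Subtype.ext (neg_neg n.1)
        rw [e1]
        exact hn
      · exact Subtype.ext (neg_neg n.1)
  rw [this]

theorem majority_dual (hodd : Odd N.card) (u : N → Bool) :
    majority N (fun n => !u n) = !majority N u := by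
  unfold majority
  beta_reduce
  have h1 : (Finset.univ.filter (fun n : N => u n = true)).card +
      (Finset.univ.filter (fun n : N => (!u n) = true)).card = N.card := by
    have h2 := Finset.card_filter_add_card_filter_not (s := (Finset.univ : Finset N))
      (fun n : N => u n = true)
    have h3 : (Finset.univ.filter (fun n : N => (!u n) = true)) =
        (Finset.univ.filter (fun n : N => ¬ u n = true)) := by
      ext n; simp
    rw [h3, h2, Finset.card_univ, Fintype.card_coe]
  obtain ⟨k, hk⟩ := hodd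
  rw [← decide_not]
  congr 1
  rw [eq_iff_iff]
  omega

end Pool.Agent.Y992.ND
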