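import Mathlib
import Pool.Agent.Y992.ND.Final

set_option autoImplicit false

open MeasureTheory ProbabilityTheory Filter Topology
open scoped ENNReal Pointwise

/-!
# One-dimensional majority rules erode nothing
-/

namespace Pool.Agent.Y992.ND

open Pool.Agent.H443R3 Pool.Agent.H443R3.Attractive

theorem majority_of_subset {d : ℕ} {N : Finset (Site d)} (u : N → Bool) (A : Finset (Site d))
    (hA : A ⊆ N) (hc : N.card < 2 * A.card)
    (hx : ∀ (n : Site d) (hn : n ∈ A), u ⟨n, hA hn⟩ = true) : majority N u = true := by
  unfold majority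
  rw [decide_eq_true_eq]
  have h1 : A.card = (A.attach.image (fun n => (⟨n.1, hA n.2⟩ : N))).card := by
    rw [Finset.card_image_of_injective, Finset.card_attach]
    intro n n' hnn
    simp only [Subtype.mk.injEq] at hnn
    exact Subtype.ext hnn
  refine hc.trans_le (Nat.mul_le_mul_left 2 ?_)
  rw [h1]
  apply Finset.card_le_card
  intro n hn
  rw [Finset.mem_image] at hn
  obtain ⟨a, _, rfl⟩ := hn
  rw [Finset.mem_filter]
  exact ⟨Finset.mem_univ _, hx a.1 a.2⟩

/-- The median. -/
theorem exists_median (N : Finset (Site 1)) (hodd : Odd N.card) :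
    ∃ p ∈ N, N.card < 2 * (N.filter (fun n => n 0 ≤ p 0)).card ∧
      N.card < 2 * (N.filter (fun n => p 0 ≤ n 0)).card := by
  classical
  obtain ⟨k, hk⟩ := hodd
  set G : Finset (Site 1) := N.filter (fun p => k + 1 ≤ (N.filter (fun n => n 0 ≤ p 0)).card) with hG
  have hne : N.Nonempty := Finset.card_pos.1 (by omega)
  have hGne : G.Nonempty := by
    obtain ⟨q, hq, hmax⟩ := Finset.exists_max_image N (fun n => n 0) hne
    refine ⟨q, ?_⟩
    rw [hG, Finset.mem_filter]
    refine ⟨hq, ?_⟩
    rw [Finset.filter_true_of_mem (fun n hn => hmax n hn)]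
    omega
  obtain ⟨p, hp, hmin⟩ := Finset.exists_min_image G (fun n => n 0) hGne
  rw [hG, Finset.mem_filter] at hp
  refine ⟨p, hp.1, by omega, ?_⟩
  have hlt : (N.filter (fun n => n 0 < p 0)).card ≤ k := by
    by_contra hcon
    push Not at hcon
    have hne2 : (N.filter (fun n => n 0 < p 0)).Nonempty := Finset.card_pos.1 (by omega)
    obtain ⟨q, hq, hmax⟩ := Finset.exists_max_image _ (fun n : Site 1 => n 0) hne2
    rw [Finset.mem_filter] at hq
    have hqG : q ∈ G := by
      rw [hG, Finset.mem_filter]
      refine ⟨hq.1, ?_⟩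
      have : N.filter (fun n => n 0 < p 0) ⊆ N.filter (fun n => n 0 ≤ q 0) := by
        intro n hn
        have h1 := hmax n hn
        rw [Finset.mem_filter] at hn ⊢
        exact ⟨hn.1, h1⟩
      exact (Nat.succ_le_of_lt hcon).trans (Finset.card_le_card this)
    have := hmin q hqG
    omega
  have hsum : (N.filter (fun n => n 0 < p 0)).card + (N.filter (fun n => p 0 ≤ n 0)).card = N.card := by
    have h2 := Finset.card_filter_add_card_filter_not (s := N) (fun n : Site 1 => n 0 < p 0)
    have h3 : (N.filter (fun n => p 0 ≤ n 0)) = (N.filter (fun n => ¬ n 0 < p 0)) := by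
      ext n; simp
    rw [h3, h2]
  omega

/-- One-dimensional majority rules do not erode the islands of `true`. -/
theorem not_erodes_one_dim_true (N : Finset (Site 1)) (hodd : Odd N.card) :
    ¬ Erodes N (majority N) true := by
  classical
  intro he
  obtain ⟨R, hR⟩ := exists_box N
  obtain ⟨p, hp, hlo, hhi⟩ := exists_median N hodd
  set x0 : Config 1 Bool := fun i => decide (0 ≤ i 0 ∧ i 0 ≤ 4 * R) with hx0
  obtain ⟨t, ht⟩ := he x0 (by
    apply (Set.finite_Icc (fun _ => (0 : ℤ) : Site 1) (fun _ => (4 * R : ℤ))).subset
    intro i hi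
    have h1 : 0 ≤ i 0 ∧ i 0 ≤ 4 * R := by simpa [hx0] using hi
    rw [Set.mem_Icc, Pi.le_def, Pi.le_def]
    constructor
    · intro j
      rw [Subsingleton.elim j 0]
      exact h1.1
    · intro j
      rw [Subsingleton.elim j 0]
      exact h1.2)
  have key : ∀ (t : ℕ) (s : Site 1), 0 ≤ s 0 + t * p 0 → s 0 + t * p 0 ≤ 4 * R →
      (CA N (majority N))^[t] x0 s = true := by
    intro t
    induction t with
    | zero =>
      intro s h1 h2
      simp only [Nat.cast_zero, zero_mul, add_zero] at h1 h2
      simp [hx0, h1, h2]
    | succ t ih =>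
      intro s h1 h2
      rw [Function.iterate_succ_apply']
      push_cast at h1 h2
      have hpR := mem_box.1 (hR hp) 0
      rw [abs_le] at hpR
      by_cases hq : s 0 + (t + 1) * p 0 + 2 * R ≤ 4 * R
      · apply majority_of_subset _ (N.filter (fun n => p 0 ≤ n 0)) (Finset.filter_subset _ _) hhi
        intro n hn
        rw [Finset.mem_filter] at hn
        have hnR := mem_box.1 (hR hn.1) 0
        rw [abs_le] at hnR
        apply ih
        · show 0 ≤ s 0 + n 0 + t * p 0
          nlinarith [hn.2]
        · show s 0 + n 0 + t * p 0 ≤ 4 * R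
          nlinarith [hn.2]
      · push Not at hq
        apply majority_of_subset _ (N.filter (fun n => n 0 ≤ p 0)) (Finset.filter_subset _ _) hlo
        intro n hn
        rw [Finset.mem_filter] at hn
        have hnR := mem_box.1 (hR hn.1) 0
        rw [abs_le] at hnR
        apply ih
        · show 0 ≤ s 0 + n 0 + t * p 0
          nlinarith [hn.2]
        · show s 0 + n 0 + t * p 0 ≤ 4 * R
          nlinarith [hn.2]
  have h3 := key t (fun _ => -(t * p 0)) (by simp) (by simp)
  rw [ht] at h3
  simp at h3

/-- One-dimensional majority rules with any neighbourhood of odd size erode the islands of neither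
symbol. -/
theorem not_erodes_one_dim (N : Finset (Site 1)) (hodd : Odd N.card) (b : Bool) :
    ¬ Erodes N (majority N) b := by
  have hT := not_erodes_one_dim_true N hodd
  cases b with
  | true => exact hT
  | false =>
    intro he
    apply hT
    have e1 : dualRule (majority N) = majority N := by
      funext u
      unfold dualRule
      rw [majority_dual hodd]
      simp
    intro x hx
    obtain ⟨t, ht⟩ := he (fl x) (by
      have : {i | fl x i = false} = {i | x i = true} := by
        ext i; simp [fl]
      rw [this]; exact hx)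
    refine ⟨t, fun i => ?_⟩
    have h2 := ca_dual (N := N) (m := majority N) t x i
    rw [e1, ht i] at h2
    simpa using h2.symm

end Pool.Agent.Y992.ND
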