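import Mathlib
import Pool.Agent.Y992.ND.OneDim

set_option autoImplicit false

open MeasureTheory ProbabilityTheory Filter Topology
open scoped ENNReal Pointwise

/-!
# Arbitrary (not monotone, longer range) perturbations

A coupling of two copies of an automaton over the alphabet of pairs.
-/

namespace Pool.Agent.Y992.ND

open Pool.Agent.H443R3 Pool.Agent.H443R3.Attractive

variable {d : ℕ}

/-! ### The pair automaton -/

/-- The two coordinates of a pair configuration. -/
def pr1 (z : Config d (Bool × Bool)) : Config d Bool := fun i => (z i).1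

def pr2 (z : Config d (Bool × Bool)) : Config d Bool := fun i => (z i).2

theorem measurable_pr1 : Measurable (pr1 : Config d (Bool × Bool) → Config d Bool) := by
  rw [measurable_pi_iff]
  intro i
  exact (Measurable.of_discrete (f := fun b : Bool × Bool => b.1)).comp (measurable_pi_apply i)

theorem measurable_pr2 : Measurable (pr2 : Config d (Bool × Bool) → Config d Bool) := by
  rw [measurable_pi_iff]
  intro i
  exact (Measurable.of_discrete (f := fun b : Bool × Bool => b.2)).comp (measurable_pi_apply i)

open Classical in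
/-- The coupled automaton: equal patterns are updated together, different patterns independently. -/
noncomputable def two (Φ : PCA d Bool) : PCA d (Bool × Bool) where
  nbhd := Φ.nbhd
  rule := fun w =>
    if (fun n => (w n).1) = (fun n => (w n).2) then
      (Φ.rule (fun n => (w n).1)).map (fun b => (b, b))
    else (Φ.rule (fun n => (w n).1)).bind (fun a => (Φ.rule (fun n => (w n).2)).map (fun b => (a, b)))

theorem two_rule_eq (Φ : PCA d Bool) (w : Φ.nbhd → Bool × Bool)
    (h : (fun n => (w n).1) = (fun n => (w n).2)) :
    (two Φ).rule w = (Φ.rule (fun n => (w n).1)).map (fun b => (b, b)) := by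
  unfold two
  dsimp only
  rw [if_pos h]

theorem two_fst (Φ : PCA d Bool) (w : Φ.nbhd → Bool × Bool) :
    ((two Φ).rule w).map (fun b => b.1) = Φ.rule (fun n => (w n).1) := by
  unfold two
  dsimp only
  split_ifs with h
  · rw [PMF.map_comp]
    exact PMF.map_id _
  · rw [PMF.map_bind]
    have : (fun a => PMF.map (fun b : Bool × Bool => b.1)
        (PMF.map (fun b => (a, b)) (Φ.rule (fun n => (w n).2)))) = PMF.pure := by
      funext a
      rw [PMF.map_comp]
      exact PMF.map_const _ _
    rw [this, PMF.bind_pure]

theorem two_snd (Φ : PCA d Bool) (w : Φ.nbhd → Bool × Bool) :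
    ((two Φ).rule w).map (fun b => b.2) = Φ.rule (fun n => (w n).2) := by
  unfold two
  dsimp only
  split_ifs with h
  · rw [PMF.map_comp, h]
    exact PMF.map_id _
  · rw [PMF.map_bind]
    have : (fun a => PMF.map (fun b : Bool × Bool => b.2)
        (PMF.map (fun b => (a, b)) (Φ.rule (fun n => (w n).2)))) =
        fun _ => Φ.rule (fun n => (w n).2) := by
      funext a
      rw [PMF.map_comp]
      exact PMF.map_id _
    rw [this, PMF.bind_const]

theorem step_fst (Φ : PCA d Bool) (z : Config d (Bool × Bool)) :
    ((two Φ).step z).map pr1 = Φ.step (pr1 z) := by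
  have h := Measure.infinitePi_map_pi
    (μ := fun i : Site d => ((two Φ).rule ((two Φ).pattern z i)).toMeasure)
    (f := fun (_ : Site d) (b : Bool × Bool) => b.1) (fun _ => Measurable.of_discrete)
  have h2 : (fun (w : Config d (Bool × Bool)) (i : Site d) => (w i).1) = pr1 := rfl
  unfold PCA.step
  rw [← h2]
  refine h.trans ?_
  congr 1
  funext i
  rw [PMF.toMeasure_map (p := (two Φ).rule ((two Φ).pattern z i))
    (f := fun b : Bool × Bool => b.1) Measurable.of_discrete]
  congr 1
  exact two_fst Φ _

theorem step_snd (Φ : PCA d Bool) (z : Config d (Bool × Bool)) :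
    ((two Φ).step z).map pr2 = Φ.step (pr2 z) := by
  have h := Measure.infinitePi_map_pi
    (μ := fun i : Site d => ((two Φ).rule ((two Φ).pattern z i)).toMeasure)
    (f := fun (_ : Site d) (b : Bool × Bool) => b.2) (fun _ => Measurable.of_discrete)
  have h2 : (fun (w : Config d (Bool × Bool)) (i : Site d) => (w i).2) = pr2 := rfl
  unfold PCA.step
  rw [← h2]
  refine h.trans ?_
  congr 1
  funext i
  rw [PMF.toMeasure_map (p := (two Φ).rule ((two Φ).pattern z i))
    (f := fun b : Bool × Bool => b.2) Measurable.of_discrete]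
  congr 1
  exact two_snd Φ _

theorem op_fst (Φ : PCA d Bool) {f : Config d Bool → ℝ≥0∞} {A : Finset (Site d)}
    (hf : DependsOn f A) (n : ℕ) (z : Config d (Bool × Bool)) :
    (two Φ).op^[n] (fun z => f (pr1 z)) z = Φ.op^[n] f (pr1 z) := by
  induction n generalizing f A with
  | zero => rfl
  | succ n ih =>
    have e1 : (two Φ).op (fun z => f (pr1 z)) = fun z => Φ.op f (pr1 z) := by
      funext z
      unfold PCA.op
      rw [← step_fst, lintegral_map (PCA.measurable_of_dependsOn hf) measurable_pr1]
    rw [Function.iterate_succ_apply, Function.iterate_succ_apply, e1]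
    exact ih (Φ.op_dependsOn hf)

theorem op_snd (Φ : PCA d Bool) {f : Config d Bool → ℝ≥0∞} {A : Finset (Site d)}
    (hf : DependsOn f A) (n : ℕ) (z : Config d (Bool × Bool)) :
    (two Φ).op^[n] (fun z => f (pr2 z)) z = Φ.op^[n] f (pr2 z) := by
  induction n generalizing f A with
  | zero => rfl
  | succ n ih =>
    have e1 : (two Φ).op (fun z => f (pr2 z)) = fun z => Φ.op f (pr2 z) := by
      funext z
      unfold PCA.op
      rw [← step_snd, lintegral_map (PCA.measurable_of_dependsOn hf) measurable_pr2]
    rw [Function.iterate_succ_apply, Function.iterate_succ_apply, e1]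
    exact ih (Φ.op_dependsOn hf)

/-! ### Disagreement -/

open Classical in
/-- The two copies disagree somewhere in `A`. -/
noncomputable def dis (A : Finset (Site d)) (z : Config d (Bool × Bool)) : ℝ≥0∞ :=
  if ∃ i ∈ A, (z i).1 ≠ (z i).2 then 1 else 0

theorem dis_le_one (A : Finset (Site d)) (z : Config d (Bool × Bool)) : dis A z ≤ 1 := by
  unfold dis; split_ifs <;> simp

theorem dis_dependsOn (A : Finset (Site d)) : DependsOn (dis A) (A : Set (Site d)) := by
  intro x y hxy
  unfold dis
  have : (∃ i ∈ A, (x i).1 ≠ (x i).2) ↔ (∃ i ∈ A, (y i).1 ≠ (y i).2) := by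
    constructor
    · rintro ⟨i, hi, h⟩
      exact ⟨i, hi, by rw [← hxy i hi]; exact h⟩
    · rintro ⟨i, hi, h⟩
      exact ⟨i, hi, by rw [hxy i hi]; exact h⟩
  simp only [this]

theorem dis_le_sum (A : Finset (Site d)) (z : Config d (Bool × Bool)) :
    dis A z ≤ ∑ i ∈ A, dis {i} z := by
  by_cases h : ∃ i ∈ A, (z i).1 ≠ (z i).2
  · obtain ⟨i, hi, h⟩ := h
    have h1 : dis {i} z = 1 := by
      unfold dis; rw [if_pos ⟨i, by simp, h⟩]
    calc dis A z ≤ 1 := dis_le_one A z
      _ = dis {i} z := h1.symm
      _ ≤ ∑ i ∈ A, dis {i} z := Finset.single_le_sum (f := fun i => dis {i} z) (fun _ _ => zero_le) hi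
  · have : dis A z = 0 := by unfold dis; rw [if_neg h]
    rw [this]; exact zero_le

/-- Disagreement does not appear from nothing. -/
theorem op_dis (Φ : PCA d Bool) (A : Finset (Site d)) (z : Config d (Bool × Bool)) :
    (two Φ).op (dis A) z ≤ dis (A + Φ.nbhd) z := by
  by_cases h : ∃ i ∈ A + Φ.nbhd, (z i).1 ≠ (z i).2
  · have : dis (A + Φ.nbhd) z = 1 := by unfold dis; rw [if_pos h]
    rw [this]
    exact (two Φ).op_le_one (dis_le_one A) z
  · have h0 : dis (A + Φ.nbhd) z = 0 := by unfold dis; rw [if_neg h]
    rw [h0]
    have hi : ∀ i ∈ A, (two Φ).op (dis {i}) z = 0 := by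
      intro i hiA
      have hpat : (fun n => ((two Φ).pattern z i n).1) = (fun n => ((two Φ).pattern z i n).2) := by
        funext n
        by_contra hne
        exact h ⟨i + n, Finset.add_mem_add hiA n.2, hne⟩
      have hrule : (two Φ).rule ((two Φ).pattern z i) =
          (Φ.rule (fun n => ((two Φ).pattern z i n).1)).map (fun b => (b, b)) :=
        two_rule_eq Φ _ hpat
      unfold PCA.op
      rw [lintegral_eq_zero_iff (PCA.measurable_of_dependsOn (dis_dependsOn {i}))]
      have hms : MeasurableSet {b : Bool × Bool | b.1 ≠ b.2} := MeasurableSet.of_discrete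
      have hz : (two Φ).step z {y | (y i).1 ≠ (y i).2} = 0 := by
        have e1 : {y : Config d (Bool × Bool) | (y i).1 ≠ (y i).2} =
            (fun y : Config d (Bool × Bool) => y i) ⁻¹' {b | b.1 ≠ b.2} := rfl
        rw [e1, ← Measure.map_apply (measurable_pi_apply i) hms]
        unfold PCA.step
        rw [Measure.infinitePi_map_eval, hrule,
          ← PMF.toMeasure_map (p := Φ.rule (fun n => ((two Φ).pattern z i n).1))
            (f := fun b : Bool => (b, b)) Measurable.of_discrete,
          Measure.map_apply Measurable.of_discrete hms]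
        have : (fun b : Bool => (b, b)) ⁻¹' {b : Bool × Bool | b.1 ≠ b.2} = ∅ := by
          ext b; simp
        rw [this, measure_empty]
      rw [Filter.EventuallyEq, ae_iff]
      refine measure_mono_null ?_ hz
      intro y hy
      simp only [Set.mem_ofPred_eq] at hy ⊢
      by_contra hcon
      apply hy
      unfold dis
      rw [if_neg]
      · rfl
      · rintro ⟨j, hj, hne⟩
        rw [Finset.mem_singleton] at hj
        subst hj
        exact hne hcon
    apply le_of_eq
    have hle : (two Φ).op (dis A) z ≤ ∑ i ∈ A, (two Φ).op (dis {i}) z := by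
      unfold PCA.op
      rw [← lintegral_finsetSum' A
        (fun i _ => (PCA.measurable_of_dependsOn (dis_dependsOn {i})).aemeasurable)]
      exact lintegral_mono fun y => dis_le_sum A y
    rw [Finset.sum_eq_zero hi] at hle
    exact le_antisymm hle zero_le

theorem op_iterate_mono {S : Type} [MeasurableSpace S] (Ψ : PCA d S)
    {f g : Config d S → ℝ≥0∞} (hfg : ∀ y, f y ≤ g y)
    (k : ℕ) (y : Config d S) : Ψ.op^[k] f y ≤ Ψ.op^[k] g y := by
  induction k generalizing f g with
  | zero => exact hfg y
  | succ k ihm => exact ihm (Ψ.op_mono hfg)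

theorem op_iterate_dis (Φ : PCA d Bool) (A : Finset (Site d)) (n : ℕ)
    (z : Config d (Bool × Bool)) :
    (two Φ).op^[n] (dis A) z ≤ dis (Φ.cone n A) z := by
  induction n generalizing A z with
  | zero => exact le_rfl
  | succ n ih =>
    rw [Function.iterate_succ_apply]
    exact (op_iterate_mono _ (op_dis Φ A) n z).trans (ih (A + Φ.nbhd) z)

end Pool.Agent.Y992.ND
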