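import Mathlib
import Pool.Agent.Y992.ND.Gen

set_option autoImplicit false

open MeasureTheory ProbabilityTheory Filter Topology
open scoped ENNReal Pointwise

/-!
# Ergodicity of arbitrary perturbations: the contraction
-/

namespace Pool.Agent.Y992.ND

open Pool.Agent.H443R3 Pool.Agent.H443R3.Attractive

variable {d : ℕ}

/-- Uniform closeness of the operators on cylinders gives ergodicity. -/
theorem ergodic_of_close (Φ : PCA d Bool) (g : ℕ → ℝ) (hg : Tendsto g atTop (𝓝 0))
    (h : ∀ (A : Finset (Site d)) (u : A → Bool) (n : ℕ) (x y : Config d Bool),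
      |(Φ.op^[n] (ind A u) x).toReal - (Φ.op^[n] (ind A u) y).toReal| ≤ A.card * g n) :
    ∃ π : Measure (Config d Bool), ErgodicWith Φ π ∧
      ∀ μ : Measure (Config d Bool), IsProbabilityMeasure μ →
        ∀ (A : Finset (Site d)) (u : A → Bool) (n : ℕ),
        |((Φ.evolve^[n] μ) (cyl A u)).toReal - (π (cyl A u)).toReal| ≤ 2 * (A.card * g n) := by
  have hclose : ∀ ν : Measure (Config d Bool), IsProbabilityMeasure ν → ∀ (A : Finset (Site d))
      (u : A → Bool) (n : ℕ),
      |((Φ.evolve^[n] ν) (cyl A u)).toReal - (Φ.op^[n] (ind A u) top).toReal| ≤ A.card * g n := by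
    intro ν hν A u n
    have h1 : ∀ x, ind A u x ≤ 1 := fun x => by
      unfold ind Set.indicator; split_ifs <;> simp
    have hA : DependsOn (ind A u) (A : Set (Site d)) := dependsOn_cyl A u
    rw [evolve_cyl]
    have hint : Integrable (fun x => (Φ.op^[n] (ind A u) x).toReal) ν := by
      apply Integrable.of_bound
        (PCA.measurable_of_dependsOn (Φ.op_iterate_dependsOn n hA)).ennreal_toReal.aestronglyMeasurable 1
      filter_upwards with x
      rw [Real.norm_eq_abs, abs_of_nonneg ENNReal.toReal_nonneg]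
      have := ENNReal.toReal_mono ENNReal.one_ne_top (Φ.op_iterate_le_one h1 n x)
      simpa using this
    have e1 : (∫ x, (Φ.op^[n] (ind A u) x).toReal ∂ν) - (Φ.op^[n] (ind A u) top).toReal =
        ∫ x, ((Φ.op^[n] (ind A u) x).toReal - (Φ.op^[n] (ind A u) top).toReal) ∂ν := by
      rw [integral_sub hint (integrable_const _)]; simp
    rw [e1, ← Real.norm_eq_abs]
    have := norm_integral_le_of_norm_le_const (μ := ν) (C := A.card * g n)
      (f := fun x => (Φ.op^[n] (ind A u) x).toReal - (Φ.op^[n] (ind A u) top).toReal)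
      (Eventually.of_forall fun x => by rw [Real.norm_eq_abs]; exact h A u n x top)
    simpa using this
  set P : ℕ → ProbabilityMeasure (Config d Bool) := fun n =>
    ⟨Φ.evolve^[n] (Measure.dirac top), Φ.isProbabilityMeasure_iterate _ n⟩ with hP
  obtain ⟨π, hπ⟩ : ∃ π : ProbabilityMeasure (Config d Bool),
      Tendsto P (hyperfilter ℕ) (𝓝 π) := by
    let 𝒰 : Ultrafilter (ProbabilityMeasure (Config d Bool)) := (hyperfilter ℕ).map P
    exact ⟨𝒰.lim, 𝒰.le_nhds_lim⟩
  have hp : IsProbabilityMeasure (π : Measure (Config d Bool)) := π.2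
  have hlimit : ∀ (A : Finset (Site d)) (u : A → Bool),
      Tendsto (fun n => (Φ.op^[n] (ind A u) top).toReal) atTop
        (𝓝 ((π : Measure (Config d Bool)) (cyl A u)).toReal) := by
    intro A u
    set F : ℕ → ℝ := fun n => (Φ.op^[n] (ind A u) top).toReal with hF
    have hcard : Tendsto (fun n => (A.card : ℝ) * g n) atTop (𝓝 0) := by
      simpa using hg.const_mul (A.card : ℝ)
    have hC : ∀ n m, |F (n + m) - F n| ≤ A.card * g n := by
      intro n m
      have hpm := Φ.isProbabilityMeasure_iterate (Measure.dirac (top : Config d Bool)) m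
      have k1 := hclose (Φ.evolve^[m] (Measure.dirac (top : Config d Bool))) hpm A u n
      rw [← Function.iterate_add_apply] at k1
      have k2 : ((Φ.evolve^[n + m] (Measure.dirac (top : Config d Bool))) (cyl A u)).toReal =
          F (n + m) := by
        rw [evolve_cyl, integral_dirac']
        exact (PCA.measurable_of_dependsOn
          (Φ.op_iterate_dependsOn (n + m) (dependsOn_cyl A u))).ennreal_toReal.stronglyMeasurable
      rw [k2] at k1
      exact k1
    have hcau : CauchySeq F := by
      rw [Metric.cauchySeq_iff']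
      intro ε hε
      obtain ⟨N, hN⟩ := (hcard.eventually_lt_const hε).exists
      refine ⟨N, fun n hn => ?_⟩
      rw [Real.dist_eq]
      have := hC N (n - N)
      rw [Nat.add_sub_cancel' hn] at this
      exact this.trans_lt hN
    obtain ⟨c, hc⟩ := cauchySeq_tendsto_of_complete hcau
    have hPn : ∀ n, ((P n : Measure (Config d Bool)) (cyl A u)).toReal = F n := by
      intro n
      show ((Φ.evolve^[n] (Measure.dirac (top : Config d Bool))) (cyl A u)).toReal = F n
      rw [evolve_cyl, integral_dirac']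
      exact (PCA.measurable_of_dependsOn
        (Φ.op_iterate_dependsOn n (dependsOn_cyl A u))).ennreal_toReal.stronglyMeasurable
    have hπC : ((π : Measure (Config d Bool)) (cyl A u)).toReal = c := by
      have h1 := ProbabilityMeasure.tendsto_measure_of_null_frontier_of_tendsto' hπ
        (E := cyl A u) (by rw [(isClopen_cyl A u).frontier_eq]; exact measure_empty)
      have h2 := (ENNReal.tendsto_toReal (measure_ne_top _ _)).comp h1
      have h3 : Tendsto F (hyperfilter ℕ) (𝓝 c) := hc.mono_left Nat.hyperfilter_le_atTop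
      refine tendsto_nhds_unique (h2.congr (fun n => ?_)) h3
      exact hPn n
    rw [hπC]
    exact hc
  have herg : ErgodicWith Φ (π : Measure (Config d Bool)) := by
    refine ergodicWith_of_cylinders Φ _ (fun μ hμ A u => ?_)
    have hcard : Tendsto (fun n => (A.card : ℝ) * g n) atTop (𝓝 0) := by
      simpa using hg.const_mul (A.card : ℝ)
    have hlim : Tendsto (fun n => ((Φ.evolve^[n] μ) (cyl A u)).toReal) atTop
        (𝓝 ((π : Measure (Config d Bool)) (cyl A u)).toReal) := by
      have h1 : Tendsto (fun n => ((Φ.evolve^[n] μ) (cyl A u)).toReal -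
          (Φ.op^[n] (ind A u) top).toReal) atTop (𝓝 0) := by
        apply squeeze_zero_norm (fun n => ?_) hcard
        rw [Real.norm_eq_abs]
        exact hclose μ hμ A u n
      have h2 := h1.add (hlimit A u)
      simpa using h2
    have hpn : ∀ n, IsProbabilityMeasure (Φ.evolve^[n] μ) := fun n =>
      Φ.isProbabilityMeasure_iterate μ n
    have := ENNReal.tendsto_ofReal hlim
    rw [ENNReal.ofReal_toReal (measure_ne_top _ _)] at this
    refine this.congr (fun n => ?_)
    exact ENNReal.ofReal_toReal (measure_ne_top _ _)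
  refine ⟨π, herg, fun μ hμ A u n => ?_⟩
  have hinv : ∀ n, Φ.evolve^[n] (π : Measure (Config d Bool)) = π := by
    intro n
    induction n with
    | zero => rfl
    | succ n ih => rw [Function.iterate_succ_apply', ih, herg.invariant]
  have k1 := hclose μ hμ A u n
  have k2 := hclose π hp A u n
  rw [hinv n] at k2
  rw [abs_le] at k1 k2 ⊢
  constructor <;> linarith [k1.1, k1.2, k2.1, k2.2]

/-! ### Linearity over the alphabet of pairs -/

theorem op2_add (Ψ : PCA d (Bool × Bool)) {f g : Config d (Bool × Bool) → ℝ≥0∞}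
    {A B : Finset (Site d)} (hf : DependsOn f A) (hg : DependsOn g B) (t : ℕ)
    (x : Config d (Bool × Bool)) :
    Ψ.op^[t] (fun y => f y + g y) x = Ψ.op^[t] f x + Ψ.op^[t] g x := by
  induction t generalizing f g A B with
  | zero => rfl
  | succ t ih =>
    have e : Ψ.op (fun y => f y + g y) = fun y => Ψ.op f y + Ψ.op g y := by
      funext y
      exact lintegral_add_left (PCA.measurable_of_dependsOn hf) _
    simp only [Function.iterate_succ, Function.comp_apply]
    rw [e]
    exact ih (Ψ.op_dependsOn hf) (Ψ.op_dependsOn hg)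

theorem op2_mul (Ψ : PCA d (Bool × Bool)) {f : Config d (Bool × Bool) → ℝ≥0∞}
    {A : Finset (Site d)} (c : ℝ≥0∞) (hf : DependsOn f A) (t : ℕ) (x : Config d (Bool × Bool)) :
    Ψ.op^[t] (fun y => c * f y) x = c * Ψ.op^[t] f x := by
  induction t generalizing f A with
  | zero => rfl
  | succ t ih =>
    have e : Ψ.op (fun y => c * f y) = fun y => c * Ψ.op f y := by
      funext y
      exact lintegral_const_mul _ (PCA.measurable_of_dependsOn hf)
    simp only [Function.iterate_succ, Function.comp_apply]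
    rw [e]
    exact ih (Ψ.op_dependsOn hf)

theorem op2_const (Ψ : PCA d (Bool × Bool)) (c : ℝ≥0∞) (t : ℕ) (x : Config d (Bool × Bool)) :
    Ψ.op^[t] (fun _ => c) x = c := by
  induction t with
  | zero => rfl
  | succ t ih =>
    have e : Ψ.op (fun _ => c) = fun _ => c := by
      funext y
      simp [PCA.op]
    rw [Function.iterate_succ_apply, e, ih]

theorem sum_dis_dependsOn (A : Finset (Site d)) :
    DependsOn (fun z : Config d (Bool × Bool) => ∑ i ∈ A, dis {i} z) (A : Set (Site d)) := by
  intro x y hxy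
  apply Finset.sum_congr rfl
  intro i hi
  exact dis_dependsOn {i} (fun j hj => by
    rw [Finset.coe_singleton, Set.mem_singleton_iff] at hj
    rw [hj]
    exact hxy i hi)

theorem op2_sum_dis (Ψ : PCA d (Bool × Bool)) (A : Finset (Site d)) (n : ℕ)
    (z : Config d (Bool × Bool)) :
    Ψ.op^[n] (fun z => ∑ i ∈ A, dis {i} z) z = ∑ i ∈ A, Ψ.op^[n] (dis {i}) z := by
  induction A using Finset.induction_on with
  | empty =>
    simp only [Finset.sum_empty]
    exact op2_const Ψ 0 n z
  | insert i A hi ih =>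
    have : (fun z : Config d (Bool × Bool) => ∑ i ∈ insert i A, dis {i} z) =
        fun z => dis {i} z + ∑ i ∈ A, dis {i} z := by
      funext z; rw [Finset.sum_insert hi]
    rw [this, op2_add Ψ (dis_dependsOn {i}) (sum_dis_dependsOn A), ih, Finset.sum_insert hi]

/-! ### The contraction -/

/-- The site `i` carries `false`. -/
noncomputable def e' (i : Site d) (x : Config d Bool) : ℝ≥0∞ := if x i = true then 0 else 1

theorem e'_dependsOn (i : Site d) : DependsOn (e' i) (({i} : Finset (Site d)) : Set (Site d)) := by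
  intro x y hxy
  unfold e'
  rw [hxy i (by simp)]

theorem dis_le (i : Site d) (z : Config d (Bool × Bool)) :
    dis {i} z ≤ e' i (pr1 z) + e' i (pr2 z) := by
  unfold dis e' pr1 pr2
  split_ifs with h h1 h2 <;> simp_all

theorem op_e' (Φ : PCA d Bool) (i : Site d) (n : ℕ) (x : Config d Bool) {ρ : ℝ}
    (h : 1 - (Φ.op^[n] (e i) x).toReal ≤ ρ) : Φ.op^[n] (e' i) x ≤ ENNReal.ofReal ρ := by
  have e1 : (fun x => e' i x + e i x) = fun _ : Config d Bool => (1 : ℝ≥0∞) := by
    funext x
    unfold e e'
    split_ifs <;> simp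
  have e2 := op_iterate_add (Φ := Φ) (e'_dependsOn i) (e_dependsOn i) n x
  rw [e1, op_iterate_const] at e2
  have f1 : Φ.op^[n] (e' i) x ≠ ∞ := by
    intro hcon
    rw [hcon, top_add] at e2
    exact ENNReal.one_ne_top e2
  rw [← ENNReal.ofReal_toReal f1]
  apply ENNReal.ofReal_le_ofReal
  have e3 := congrArg ENNReal.toReal e2
  rw [ENNReal.toReal_add f1 (fin_e n i x), ENNReal.toReal_one] at e3
  linarith

theorem contraction (Φ : PCA d Bool) {T K : ℕ} {ρ : ℝ}
    (hT : ∀ i x, 1 - (Φ.op^[T] (e i) x).toReal ≤ ρ) (hρ : 0 ≤ ρ)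
    (hK : ∀ i, (Φ.cone T {i}).card ≤ K) (hκ : 2 * ρ * K ≤ 1 / 2) (k : ℕ) (i : Site d)
    (z : Config d (Bool × Bool)) :
    (two Φ).op^[k * T] (dis {i}) z ≤ ENNReal.ofReal ((1 / 2) ^ k) := by
  -- one block
  have h1 : ∀ (i : Site d) (z : Config d (Bool × Bool)),
      (two Φ).op^[T] (dis {i}) z ≤ ENNReal.ofReal (2 * ρ) := by
    intro i z
    have hd1 : DependsOn (fun z : Config d (Bool × Bool) => e' i (pr1 z))
        (({i} : Finset (Site d)) : Set (Site d)) := by
      intro x y hxy
      apply e'_dependsOn i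
      intro j hj
      show (x j).1 = (y j).1
      rw [hxy j hj]
    have hd2 : DependsOn (fun z : Config d (Bool × Bool) => e' i (pr2 z))
        (({i} : Finset (Site d)) : Set (Site d)) := by
      intro x y hxy
      apply e'_dependsOn i
      intro j hj
      show (x j).2 = (y j).2
      rw [hxy j hj]
    calc (two Φ).op^[T] (dis {i}) z
        ≤ (two Φ).op^[T] (fun z => e' i (pr1 z) + e' i (pr2 z)) z :=
          op_iterate_mono _ (dis_le i) T z
      _ = Φ.op^[T] (e' i) (pr1 z) + Φ.op^[T] (e' i) (pr2 z) := by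
          rw [op2_add _ hd1 hd2, op_fst Φ (e'_dependsOn i), op_snd Φ (e'_dependsOn i)]
      _ ≤ ENNReal.ofReal ρ + ENNReal.ofReal ρ :=
          add_le_add (op_e' Φ i T _ (hT i _)) (op_e' Φ i T _ (hT i _))
      _ = ENNReal.ofReal (2 * ρ) := by
          rw [← ENNReal.ofReal_add hρ hρ]; congr 1; ring
  have h2 : ∀ (i : Site d) (z : Config d (Bool × Bool)),
      (two Φ).op^[T] (dis {i}) z ≤
        ENNReal.ofReal (2 * ρ) * ∑ j ∈ Φ.cone T {i}, dis {j} z := by
    intro i z
    by_cases h : ∃ j ∈ Φ.cone T {i}, (z j).1 ≠ (z j).2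
    · have h3 : dis (Φ.cone T {i}) z = 1 := by unfold dis; rw [if_pos h]
      calc (two Φ).op^[T] (dis {i}) z ≤ ENNReal.ofReal (2 * ρ) * 1 := by
            rw [mul_one]; exact h1 i z
        _ = ENNReal.ofReal (2 * ρ) * dis (Φ.cone T {i}) z := by rw [h3]
        _ ≤ _ := by gcongr; exact dis_le_sum _ z
    · have h3 : dis (Φ.cone T {i}) z = 0 := by unfold dis; rw [if_neg h]
      have h4 := op_iterate_dis Φ {i} T z
      rw [h3] at h4
      exact h4.trans zero_le
  induction k generalizing i z with
  | zero =>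
    rw [Nat.zero_mul, Function.iterate_zero_apply, pow_zero, ENNReal.ofReal_one]
    exact dis_le_one _ _
  | succ k ih =>
    rw [Nat.succ_mul, Function.iterate_add_apply]
    have hd := sum_dis_dependsOn (Φ.cone T {i})
    calc (two Φ).op^[k * T] ((two Φ).op^[T] (dis {i})) z
        ≤ (two Φ).op^[k * T] (fun z => ENNReal.ofReal (2 * ρ) * ∑ j ∈ Φ.cone T {i}, dis {j} z) z :=
          op_iterate_mono _ (h2 i) _ z
      _ = ENNReal.ofReal (2 * ρ) * ∑ j ∈ Φ.cone T {i}, (two Φ).op^[k * T] (dis {j}) z := by
          rw [op2_mul _ _ hd, op2_sum_dis]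
      _ ≤ ENNReal.ofReal (2 * ρ) * ∑ _j ∈ Φ.cone T {i}, ENNReal.ofReal ((1 / 2) ^ k) := by
          gcongr with j _
          exact ih j z
      _ = ENNReal.ofReal (2 * ρ) * (((Φ.cone T {i}).card : ℝ≥0∞) * ENNReal.ofReal ((1 / 2) ^ k)) := by
          rw [Finset.sum_const, nsmul_eq_mul]
      _ ≤ ENNReal.ofReal (2 * ρ) * ((K : ℝ≥0∞) * ENNReal.ofReal ((1 / 2) ^ k)) := by
          gcongr
          exact hK i
      _ = ENNReal.ofReal (2 * ρ * K * (1 / 2) ^ k) := by
          rw [← ENNReal.ofReal_natCast, ← ENNReal.ofReal_mul (by positivity),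
            ← ENNReal.ofReal_mul (by positivity)]
          congr 1; ring
      _ ≤ ENNReal.ofReal ((1 / 2) ^ (k + 1)) := by
          apply ENNReal.ofReal_le_ofReal
          rw [pow_succ, mul_comm ((1 / 2 : ℝ) ^ k) (1 / 2)]
          exact mul_le_mul_of_nonneg_right hκ (by positivity)

end Pool.Agent.Y992.ND
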