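import Mathlib
import Pool.Agent.Y992.ND.Gen2

set_option autoImplicit false

open MeasureTheory ProbabilityTheory Filter Topology
open scoped ENNReal Pointwise

/-!
# Ergodicity of arbitrary biased perturbations of monotone automata
-/

namespace Pool.Agent.Y992.ND

open Pool.Agent.H443R3 Pool.Agent.H443R3.Attractive

variable {d : ℕ}

theorem contraction_all (Φ : PCA d Bool) {T K : ℕ} {ρ : ℝ}
    (hT : ∀ i x, 1 - (Φ.op^[T] (e i) x).toReal ≤ ρ) (hρ : 0 ≤ ρ)
    (hK : ∀ i, (Φ.cone T {i}).card ≤ K) (hκ : 2 * ρ * K ≤ 1 / 2) (n : ℕ) (i : Site d)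
    (z : Config d (Bool × Bool)) :
    (two Φ).op^[n] (dis {i}) z ≤ ENNReal.ofReal ((1 / 2) ^ (n / T)) := by
  have h1 : n = n % T + n / T * T := by
    rw [mul_comm]; exact (Nat.mod_add_div n T).symm
  conv_lhs => rw [h1]
  rw [Function.iterate_add_apply]
  calc (two Φ).op^[n % T] ((two Φ).op^[n / T * T] (dis {i})) z
      ≤ (two Φ).op^[n % T] (fun _ => ENNReal.ofReal ((1 / 2) ^ (n / T))) z :=
        op_iterate_mono _ (fun y => contraction Φ hT hρ hK hκ (n / T) i y) _ z
    _ = _ := op2_const _ _ _ _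

theorem close_of_contraction (Φ : PCA d Bool) {T K : ℕ} {ρ : ℝ}
    (hT : ∀ i x, 1 - (Φ.op^[T] (e i) x).toReal ≤ ρ) (hρ : 0 ≤ ρ)
    (hK : ∀ i, (Φ.cone T {i}).card ≤ K) (hκ : 2 * ρ * K ≤ 1 / 2)
    (A : Finset (Site d)) (u : A → Bool) (n : ℕ) (x y : Config d Bool) :
    |(Φ.op^[n] (ind A u) x).toReal - (Φ.op^[n] (ind A u) y).toReal| ≤
      A.card * (1 / 2) ^ (n / T) := by
  have h1 : ∀ x, ind A u x ≤ 1 := fun x => by
    unfold ind Set.indicator; split_ifs <;> simp
  have hA : DependsOn (ind A u) (A : Set (Site d)) := dependsOn_cyl A u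
  have hfin : ∀ y, Φ.op^[n] (ind A u) y ≠ ∞ := fun y =>
    ((Φ.op_iterate_le_one h1 n y).trans_lt ENNReal.one_lt_top).ne
  have key : ∀ x y : Config d Bool, (Φ.op^[n] (ind A u) x).toReal ≤
      (Φ.op^[n] (ind A u) y).toReal + A.card * (1 / 2) ^ (n / T) := by
    intro x y
    set z : Config d (Bool × Bool) := fun i => (x i, y i) with hz
    have hp : ∀ w : Config d (Bool × Bool),
        ind A u (pr1 w) ≤ ind A u (pr2 w) + ∑ i ∈ A, dis {i} w := by
      intro w
      by_cases h : ∃ i ∈ A, (w i).1 ≠ (w i).2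
      · have h3 : dis A w = 1 := by unfold dis; rw [if_pos h]
        calc ind A u (pr1 w) ≤ 1 := h1 _
          _ = dis A w := h3.symm
          _ ≤ ∑ i ∈ A, dis {i} w := dis_le_sum A w
          _ ≤ _ := le_add_self
      · have : ind A u (pr1 w) = ind A u (pr2 w) := by
          apply hA
          intro i hi
          by_contra hne
          exact h ⟨i, hi, hne⟩
        rw [this]
        exact le_self_add
    have hd2 : DependsOn (fun w : Config d (Bool × Bool) => ind A u (pr2 w))
        (A : Set (Site d)) := by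
      intro w w' hww
      apply hA
      intro i hi
      show (w i).2 = (w' i).2
      rw [hww i hi]
    have h2 := op_iterate_mono (two Φ) hp n z
    rw [op2_add _ hd2 (sum_dis_dependsOn A), op2_sum_dis, op_fst Φ hA, op_snd Φ hA] at h2
    have h3 : ∑ i ∈ A, (two Φ).op^[n] (dis {i}) z ≤ ENNReal.ofReal (A.card * (1 / 2) ^ (n / T)) := by
      calc ∑ i ∈ A, (two Φ).op^[n] (dis {i}) z
          ≤ ∑ _i ∈ A, ENNReal.ofReal ((1 / 2) ^ (n / T)) :=
            Finset.sum_le_sum fun i _ => contraction_all Φ hT hρ hK hκ n i z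
        _ = ENNReal.ofReal (A.card * (1 / 2) ^ (n / T)) := by
            rw [Finset.sum_const, nsmul_eq_mul, ENNReal.ofReal_mul (by positivity),
              ENNReal.ofReal_natCast]
    have h4 : Φ.op^[n] (ind A u) x ≤ Φ.op^[n] (ind A u) y +
        ENNReal.ofReal (A.card * (1 / 2) ^ (n / T)) := h2.trans (add_le_add le_rfl h3)
    have h5 := ENNReal.toReal_mono (ENNReal.add_ne_top.2 ⟨hfin y, ENNReal.ofReal_ne_top⟩) h4
    rw [ENNReal.toReal_add (hfin y) ENNReal.ofReal_ne_top,
      ENNReal.toReal_ofReal (by positivity)] at h5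
    exact h5
  rw [abs_le]
  constructor <;> linarith [key x y, key y x]

theorem half_pow_le {T : ℕ} (hT : 1 ≤ T) :
    ∃ r : ℝ, 0 < r ∧ r < 1 ∧ ∀ n : ℕ, (1 / 2 : ℝ) ^ (n / T) ≤ 2 * r ^ n := by
  have hT0 : (0 : ℝ) < T := by exact_mod_cast hT
  set r : ℝ := (1 / 2 : ℝ) ^ ((1 : ℝ) / T) with hr
  have hr0 : 0 < r := Real.rpow_pos_of_pos (by norm_num) _
  have hr1 : r < 1 := Real.rpow_lt_one (by norm_num) (by norm_num) (by positivity)
  have hrT : r ^ T = 1 / 2 := by
    rw [hr, ← Real.rpow_natCast, ← Real.rpow_mul (by norm_num), one_div_mul_cancel hT0.ne',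
      Real.rpow_one]
  refine ⟨r, hr0, hr1, fun n => ?_⟩
  have h3 : r ^ n = (1 / 2 : ℝ) ^ (n / T) * r ^ (n % T) := by
    conv_lhs => rw [← Nat.div_add_mod n T, pow_add, pow_mul, hrT]
  have h4 : (1 / 2 : ℝ) ≤ r ^ (n % T) := by
    rw [← hrT]
    exact pow_le_pow_of_le_one hr0.le hr1.le (Nat.mod_lt _ hT).le
  rw [h3]
  have h5 : 0 ≤ (1 / 2 : ℝ) ^ (n / T) := by positivity
  nlinarith

/-! ### Perturbations -/

/-- `Φ` is a perturbation of the automaton `CA N m` such that, whatever the configuration, the new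
symbol is `b` with probability at least `τ`, and it is `b` with probability at least `1 - δ` at
every site at which `CA N m` shows `b`. -/
structure Pert (Φ : PCA d Bool) (N : Finset (Site d)) (m : (N → Bool) → Bool) (b : Bool)
    (τ δ : ℝ) : Prop where
  all : ∀ (x : Config d Bool) (i : Site d), τ ≤ (Φ.rule (Φ.pattern x i) b).toReal
  good : ∀ (x : Config d Bool) (i : Site d), CA N m x i = b →
    1 - δ ≤ (Φ.rule (Φ.pattern x i) b).toReal

variable {N : Finset (Site d)} {m : (N → Bool) → Bool} {Φ : PCA d Bool} {τ δ : ℝ}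

theorem ofReal_le_pmf {p : PMF Bool} {b : Bool} {c : ℝ} (h : c ≤ (p b).toReal) :
    ENNReal.ofReal c ≤ p b := by
  rw [← ENNReal.ofReal_toReal (PMF.apply_ne_top p b)]
  exact ENNReal.ofReal_le_ofReal h

theorem gen_op_gt_ge (hm : Monotone m) (hτ : 0 ≤ τ) (hτ1 : τ ≤ 1) (hδ : 0 ≤ δ) (hδ1 : δ ≤ 1)
    (hP : Pert Φ N m true τ δ)
    {x0 : Config d Bool} (F : Finset (Site d)) (hF : ∀ i, x0 i = true → i ∈ F)
    {t K : ℕ} (hs : ∃ i, (CA N m)^[t] x0 i = true)
    (hK : ((fun B => B + N)^[t] ({0} : Finset (Site d))).card ≤ K)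
    {a : ℝ} (ha : a ≤ τ ^ F.card) (ha0 : 0 ≤ a) (hκ : a ≤ 1 - K * δ) (x : Config d Bool) :
    ENNReal.ofReal a + ENNReal.ofReal (1 - K * δ - a) * gt N m (t + 1) x ≤
      Φ.op (gt N m t) x := by
  by_cases hx : (CA N m)^[t + 1] x 0 = true
  · have hg : gt N m (t + 1) x = 1 := by unfold gt e; rw [if_pos hx]
    rw [hg, mul_one, ← ENNReal.ofReal_add ha0 (by linarith)]
    rw [Function.iterate_succ_apply] at hx
    set A := ((fun B => B + N)^[t] ({0} : Finset (Site d))).filter
      (fun i => CA N m x i = true) with hA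
    have key := op_ge_prod Φ (gt N m t) A (fun y hy => by
      apply one_le_gt hm t hx
      intro i hi
      cases hxi : CA N m x i with
      | false => exact Bool.false_le _
      | true =>
        have : y i = true := hy i (by rw [hA, Finset.mem_filter]; exact ⟨hi, hxi⟩)
        rw [this]) x
    refine le_trans ?_ key
    have e1 : ∏ _i ∈ A, ENNReal.ofReal (1 - δ) ≤ ∏ i ∈ A, Φ.rule (Φ.pattern x i) true := by
      apply Finset.prod_le_prod'
      intro i hi
      rw [hA, Finset.mem_filter] at hi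
      exact ofReal_le_pmf (hP.good x i hi.2)
    refine le_trans ?_ e1
    rw [Finset.prod_const, ← ENNReal.ofReal_pow (by linarith)]
    apply ENNReal.ofReal_le_ofReal
    have hAK : (A.card : ℝ) ≤ K := by
      exact_mod_cast (Finset.card_filter_le _ _).trans hK
    have hb := one_add_mul_le_pow (a := -δ) (by linarith) A.card
    have hb' : 1 - (A.card : ℝ) * δ ≤ (1 - δ) ^ A.card := by
      have e : 1 + (A.card : ℝ) * -δ = 1 - (A.card : ℝ) * δ := by ring
      rw [e] at hb
      simpa [sub_eq_add_neg] using hb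
    have : (A.card : ℝ) * δ ≤ K * δ := mul_le_mul_of_nonneg_right hAK hδ
    linarith
  · have hg : gt N m (t + 1) x = 0 := by unfold gt e; rw [if_neg hx]
    rw [hg, mul_zero, add_zero]
    obtain ⟨p, hp⟩ := hs
    set A : Finset (Site d) := F.image (fun i => i - p) with hA
    have key := op_ge_prod Φ (gt N m t) A (fun y hy => by
      have hz : (CA N m)^[t] (fun j => x0 (j + p)) 0 = true := by
        rw [ca_shift, zero_add]; exact hp
      apply one_le_gt hm t hz
      intro i _
      cases hxi : x0 (i + p) with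
      | false => exact Bool.false_le _
      | true =>
        have : y i = true := hy i (by
          rw [hA, Finset.mem_image]
          exact ⟨i + p, hF _ hxi, by abel⟩)
        rw [this]) x
    refine le_trans ?_ key
    have e1 : ∏ _i ∈ A, ENNReal.ofReal τ ≤ ∏ i ∈ A, Φ.rule (Φ.pattern x i) true := by
      apply Finset.prod_le_prod'
      intro i _
      exact ofReal_le_pmf (hP.all x i)
    refine le_trans ?_ e1
    rw [Finset.prod_const, ← ENNReal.ofReal_pow hτ]
    apply ENNReal.ofReal_le_ofReal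
    have hcard : A.card ≤ F.card := Finset.card_image_le
    exact ha.trans (pow_le_pow_of_le_one hτ hτ1 hcard)

theorem gen_many_steps (hm : Monotone m) (hτ : 0 ≤ τ) (hτ1 : τ ≤ 1) (hδ : 0 ≤ δ) (hδ1 : δ ≤ 1)
    (hP : Pert Φ N m true τ δ)
    {x0 : Config d Bool} (F : Finset (Site d)) (hF : ∀ i, x0 i = true → i ∈ F)
    {T K : ℕ} (hs : ∀ t, ∃ i, (CA N m)^[t] x0 i = true)
    (hK : ∀ t ≤ T, ((fun B => B + N)^[t] ({0} : Finset (Site d))).card ≤ K)
    {a : ℝ} (ha : a ≤ τ ^ F.card) (ha0 : 0 ≤ a) (ha1 : a ≤ 1) (hκ : a ≤ 1 - K * δ)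
    (x : Config d Bool) (n t : ℕ) (hnt : t + n ≤ T) :
    1 - (Φ.op^[n] (gt N m t) x).toReal ≤ (1 - a) ^ n + n * (K * δ) := by
  have hKδ : 0 ≤ (K : ℝ) * δ := by positivity
  have hfin : ∀ n t, Φ.op^[n] (gt N m t) x ≠ ∞ := fun n t =>
    ((Φ.op_iterate_le_one (gt_le_one t) n x).trans_lt ENNReal.one_lt_top).ne
  induction n generalizing t with
  | zero =>
    have : 0 ≤ (Φ.op^[0] (gt N m t) x).toReal := ENNReal.toReal_nonneg
    simp only [pow_zero, Nat.cast_zero, zero_mul, add_zero]
    linarith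
  | succ n ih =>
    have hstep := op_iterate_mono Φ
      (gen_op_gt_ge hm hτ hτ1 hδ hδ1 hP F hF (hs t) (hK t (by omega)) ha ha0 hκ) n x
    have hdep1 := gt_dependsOn (N := N) hm (t + 1)
    have hdep : DependsOn (fun y : Config d Bool =>
        ENNReal.ofReal (1 - K * δ - a) * gt N m (t + 1) y)
        (((fun B => B + N)^[t + 1] ({0} : Finset (Site d)) : Finset (Site d)) : Set (Site d)) := by
      intro y y' hyy
      show ENNReal.ofReal (1 - K * δ - a) * gt N m (t + 1) y =
        ENNReal.ofReal (1 - K * δ - a) * gt N m (t + 1) y'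
      rw [hdep1 hyy]
    have hdep0 : DependsOn (fun _ : Config d Bool => ENNReal.ofReal a)
        ((∅ : Finset (Site d)) : Set (Site d)) := fun _ _ _ => rfl
    rw [op_iterate_add hdep0 hdep, op_iterate_const, op_iterate_mul _ hdep1,
      ← Function.iterate_succ_apply] at hstep
    have h3 := ENNReal.toReal_mono (hfin (n + 1) t) hstep
    rw [ENNReal.toReal_add ENNReal.ofReal_ne_top
      (ENNReal.mul_ne_top ENNReal.ofReal_ne_top (hfin n (t + 1))), ENNReal.toReal_mul,
      ENNReal.toReal_ofReal ha0, ENNReal.toReal_ofReal (by linarith)] at h3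
    have ih' := ih (t + 1) (by omega)
    set U := (Φ.op^[n] (gt N m (t + 1)) x).toReal with hU
    set U' := (Φ.op^[n + 1] (gt N m t) x).toReal with hU'
    have hU1 : U ≤ 1 := by
      have := ENNReal.toReal_mono ENNReal.one_ne_top
        (Φ.op_iterate_le_one (gt_le_one (N := N) (m := m) (t + 1)) n x)
      simpa using this
    have hU0 : 0 ≤ U := ENNReal.toReal_nonneg
    have e1 : 1 - U' ≤ (1 - a) * (1 - U) + K * δ * U := by linarith
    have e2 : (K : ℝ) * δ * U ≤ K * δ := mul_le_of_le_one_right hKδ hU1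
    have e3 : (1 - a) * (1 - U) ≤ (1 - a) * ((1 - a) ^ n + n * (K * δ)) :=
      mul_le_mul_of_nonneg_left ih' (by linarith)
    have e4 : (1 - a) * (n * (K * δ)) ≤ n * (K * δ) := by
      apply mul_le_of_le_one_left (by positivity) (by linarith)
    have e5 : ((n + 1 : ℕ) : ℝ) * (K * δ) = n * (K * δ) + K * δ := by push_cast; ring
    rw [e5, pow_succ]
    nlinarith

end Pool.Agent.Y992.ND
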