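import Mathlib
import Pool.Agent.Y992.ND.Gen3

set_option autoImplicit false

open MeasureTheory ProbabilityTheory Filter Topology
open scoped ENNReal Pointwise

/-!
# Ergodicity of arbitrary biased perturbations of monotone automata: the theorem
-/

namespace Pool.Agent.Y992.ND

open Pool.Agent.H443R3 Pool.Agent.H443R3.Attractive

variable {d : ℕ} {N : Finset (Site d)} {m : (N → Bool) → Bool}

theorem cone_subset' {N : Finset (Site d)} {R : ℕ} (hR : N ⊆ box R) (t : ℕ) (i : Site d) :
    (fun B => B + N)^[t] ({i} : Finset (Site d)) ⊆ (box (R * t)).image (fun j => j + i) := by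
  induction t with
  | zero =>
    intro j hj
    rw [Function.iterate_zero_apply, Finset.mem_singleton] at hj
    subst hj
    rw [Finset.mem_image]
    exact ⟨0, mem_box.2 fun j => by simp, zero_add _⟩
  | succ t ih =>
    rw [Function.iterate_succ_apply']
    intro j hj
    obtain ⟨a, ha, n, hn, rfl⟩ := Finset.mem_add.1 hj
    obtain ⟨a', ha', rfl⟩ := Finset.mem_image.1 (ih ha)
    rw [Finset.mem_image]
    refine ⟨a' + n, mem_box.2 fun j => ?_, by abel⟩
    have h1 := mem_box.1 ha' j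
    have h2 := mem_box.1 (hR hn) j
    simp only [Pi.add_apply]
    calc |a' j + n j| ≤ |a' j| + |n j| := abs_add_le _ _
      _ ≤ ((R * t : ℕ) : ℤ) + (R : ℤ) := add_le_add h1 h2
      _ = ((R * (t + 1) : ℕ) : ℤ) := by push_cast; ring

theorem params (R d f : ℕ) {η' : ℝ} (hη0 : 0 < η') :
    ∃ c : ℝ, 0 < c ∧ ∀ τ δ : ℝ, 0 < τ → τ ≤ 1 → 0 ≤ δ → δ ≤ c * τ ^ (f * (4 * d + 2)) →
      ∃ (T : ℕ) (a : ℝ), 1 ≤ T ∧ 0 < a ∧ a ≤ 1 / 2 ∧ a ≤ τ ^ f ∧
        ((1 - a) ^ T + T * ((((2 * (R * T) + 1) ^ d : ℕ) : ℝ) * δ)) *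
          (((2 * (R * T) + 1) ^ d : ℕ) : ℝ) ≤ 2 * η' ∧
        (((2 * (R * T) + 1) ^ d : ℕ) : ℝ) * δ ≤ η' := by
  obtain ⟨L, hL1, hL⟩ := exists_L R d hη0
  set M : ℝ := 2 * (4 * (R : ℝ) + 1) ^ (2 * d) * (2 * L) ^ (4 * d + 2) with hM
  have hM0 : 0 < M := by positivity
  refine ⟨η' / M, by positivity, fun ε δ hε hε1 hδ hc => ?_⟩
  set a : ℝ := ε ^ f / 2 with ha
  have hp0 : 0 < ε ^ f := by positivity
  have hp1 : ε ^ f ≤ 1 := pow_le_one₀ hε.le hε1
  have ha0 : 0 < a := by positivity
  have ha1 : a ≤ 1 / 2 := by rw [ha]; linarith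
  have ha2 : a ≤ ε ^ f := by rw [ha]; linarith
  set y : ℝ := L / a with hy
  have hyL : L ≤ y := by
    rw [hy, le_div_iff₀ ha0]
    nlinarith
  have hy1 : 1 ≤ y := hL1.trans hyL
  set T : ℕ := ⌈L / a ^ 2⌉₊ with hT
  have hLa : 1 ≤ L / a ^ 2 := by
    rw [le_div_iff₀ (by positivity)]
    nlinarith
  have hT1 : L / a ^ 2 ≤ T := Nat.le_ceil _
  have hT2 : (T : ℝ) ≤ 2 * y ^ 2 := by
    have h3 : (T : ℝ) < L / a ^ 2 + 1 := Nat.ceil_lt_add_one (by linarith)
    have h4 : L / a ^ 2 ≤ y ^ 2 := by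
      have h5 : y ^ 2 = L ^ 2 / a ^ 2 := div_pow L a 2
      rw [h5]
      exact div_le_div_of_nonneg_right (by nlinarith) (by positivity)
    linarith
  have hTone : (1 : ℝ) ≤ T := hLa.trans hT1
  have hTnat : 1 ≤ T := by exact_mod_cast hTone
  set K : ℕ := (2 * (R * T) + 1) ^ d with hK
  have hR0 : (0 : ℝ) ≤ R := Nat.cast_nonneg _
  set Q : ℝ := ((4 * R + 1) * y ^ 2) ^ d with hQ
  have hKQ : (K : ℝ) ≤ Q := by
    rw [hK, hQ]
    push_cast
    apply pow_le_pow_left₀ (by positivity)
    have : (R : ℝ) * T ≤ R * (2 * y ^ 2) := mul_le_mul_of_nonneg_left hT2 hR0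
    nlinarith
  have hK1 : (1 : ℝ) ≤ K := by
    have : 1 ≤ K := Nat.one_le_pow _ _ (by omega)
    exact_mod_cast this
  have hQ0 : 0 ≤ Q := by positivity
  have t1 : (1 - a) ^ T * K ≤ η' := by
    have h3 : (1 - a) ^ T ≤ Real.exp (-y) := by
      calc (1 - a) ^ T ≤ (Real.exp (-a)) ^ T :=
            pow_le_pow_left₀ (by linarith) (Real.one_sub_le_exp_neg a) T
        _ = Real.exp (-(a * T)) := by rw [← Real.exp_nat_mul]; congr 1; ring
        _ ≤ Real.exp (-y) := by
            apply Real.exp_le_exp.2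
            have : y ≤ a * T := by
              calc y = a * (L / a ^ 2) := by rw [hy]; field_simp
                _ ≤ a * T := mul_le_mul_of_nonneg_left hT1 ha0.le
            linarith
    calc (1 - a) ^ T * K ≤ Real.exp (-y) * Q :=
          mul_le_mul h3 hKQ (by positivity) (Real.exp_pos _).le
      _ ≤ η' := hL y hyL
  have t2 : T * (K * δ) * K ≤ η' := by
    have hεp : 0 < ε ^ (f * (4 * d + 2)) := by positivity
    have h3 : y ^ (4 * d + 2) = (2 * L) ^ (4 * d + 2) / ε ^ (f * (4 * d + 2)) := by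
      have : y = 2 * L / ε ^ f := by rw [hy, ha]; field_simp
      rw [this, div_pow, ← pow_mul]
    calc T * (K * δ) * K ≤ (2 * y ^ 2) * (Q * δ) * Q := by gcongr
      _ = (2 * (4 * (R : ℝ) + 1) ^ (2 * d) * y ^ (4 * d + 2)) * δ := by
          rw [hQ, mul_pow, ← pow_mul]
          have e1 : y ^ (4 * d + 2) = y ^ 2 * y ^ (2 * d) * y ^ (2 * d) := by
            rw [← pow_add, ← pow_add]; congr 1; ring
          have e2 : (4 * (R : ℝ) + 1) ^ (2 * d) = (4 * (R : ℝ) + 1) ^ d * (4 * (R : ℝ) + 1) ^ d := by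
            rw [← pow_add]; congr 1; ring
          rw [e1, e2]
          ring
      _ ≤ (2 * (4 * (R : ℝ) + 1) ^ (2 * d) * y ^ (4 * d + 2)) *
            (η' / M * ε ^ (f * (4 * d + 2))) := by gcongr
      _ = η' := by
          rw [h3, hM]
          field_simp
  refine ⟨T, a, hTnat, ha0, ha1, ha2, ?_, ?_⟩
  · rw [add_mul]; linarith
  · have h3 : 0 ≤ (K : ℝ) * δ := by positivity
    calc (K : ℝ) * δ ≤ T * (K * δ) := le_mul_of_one_le_left h3 hTone
      _ ≤ T * (K * δ) * K := le_mul_of_one_le_right (by positivity) hK1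
      _ ≤ η' := t2

theorem gen_true (hm : Monotone m) {x0 : Config d Bool} (F : Finset (Site d))
    (hF : ∀ i, x0 i = true → i ∈ F) (hs : ∀ t, ∃ i, (CA N m)^[t] x0 i = true)
    (N' : Finset (Site d)) {η : ℝ} (hη : 0 < η) :
    ∃ c : ℝ, 0 < c ∧ ∀ (Φ : PCA d Bool) (τ δ : ℝ), Φ.nbhd ⊆ N' → 0 < τ → 0 ≤ δ →
      δ ≤ c * τ ^ (F.card * (4 * d + 2)) → Pert Φ N m true τ δ →
      ∃ π : Measure (Config d Bool), ExpErgodic Φ π ∧
        ∀ i, 1 - η ≤ (π {x | x i = true}).toReal := by
  obtain ⟨R, hR⟩ := exists_box (N ∪ N')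
  have hRN : N ⊆ box R := Finset.subset_union_left.trans hR
  have hRN' : N' ⊆ box R := Finset.subset_union_right.trans hR
  set η' : ℝ := min (1 / 8) (η / 2) with hη'
  have hη0 : 0 < η' := lt_min (by norm_num) (by linarith)
  have hη1 : η' ≤ 1 / 8 := min_le_left _ _
  have hη2 : η' ≤ η / 2 := min_le_right _ _
  obtain ⟨c, hc, h⟩ := params R d F.card hη0
  refine ⟨c, hc, fun Φ τ δ hΦ hτ hδ hcδ hP => ?_⟩
  have hτ1 : τ ≤ 1 := by
    have h1 := hP.all bot 0
    have h2 : (Φ.rule (Φ.pattern bot 0) true).toReal ≤ 1 := by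
      have := ENNReal.toReal_mono ENNReal.one_ne_top (PMF.coe_le_one (Φ.rule (Φ.pattern bot 0)) true)
      simpa using this
    linarith
  obtain ⟨T, a, hT1, ha0, ha1, ha2, hρ1, hKδ⟩ := h τ δ hτ hτ1 hδ hcδ
  set K : ℕ := (2 * (R * T) + 1) ^ d with hK
  have hK1 : (1 : ℝ) ≤ K := by
    have : 1 ≤ K := Nat.one_le_pow _ _ (by omega)
    exact_mod_cast this
  have hδ1 : δ ≤ 1 := by
    have : δ ≤ K * δ := le_mul_of_one_le_left hδ hK1
    linarith
  set ρ : ℝ := (1 - a) ^ T + T * (K * δ) with hρ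
  have hρ0 : 0 ≤ ρ := by
    have : 0 ≤ (1 - a) ^ T := pow_nonneg (by linarith) _
    positivity
  have hρ2 : ρ ≤ 2 * η' := (le_mul_of_one_le_right hρ0 hK1).trans hρ1
  have hcard : ∀ t ≤ T, ((fun B => B + N)^[t] ({0} : Finset (Site d))).card ≤ K := by
    intro t ht
    rw [hK, ← card_box (d := d) (R * T)]
    exact Finset.card_le_card ((cone_subset hRN t).trans (box_mono (Nat.mul_le_mul_left R ht)))
  have key0 : ∀ x, 1 - (Φ.op^[T] (e 0) x).toReal ≤ ρ := fun x =>
    gen_many_steps hm hτ.le hτ1 hδ hδ1 hP F hF (T := T) (K := K) hs hcard ha2 ha0.le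
      (by linarith) (by linarith) x T 0 (by omega)
  have key : ∀ (i : Site d) (x : Config d Bool), 1 - (Φ.op^[T] (e i) x).toReal ≤ ρ := by
    intro i x
    rw [e_shift i, Φ.op_iterate_shift T (e_dependsOn 0)]
    exact key0 _
  have hcone : ∀ i, (Φ.cone T {i}).card ≤ K := by
    intro i
    have h1 := cone_subset' (hΦ.trans hRN') T i
    have h2 : (Φ.cone T {i}).card ≤ ((box (R * T)).image (fun j => j + i)).card :=
      Finset.card_le_card h1
    rw [hK, ← card_box (d := d) (R * T)]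
    exact h2.trans Finset.card_image_le
  have hκ : 2 * ρ * K ≤ 1 / 2 := by linarith
  obtain ⟨r, hr0, hr1, hr⟩ := half_pow_le hT1
  have hlim : Tendsto (fun n : ℕ => (1 / 2 : ℝ) ^ (n / T)) atTop (𝓝 0) := by
    have h1 := (tendsto_pow_atTop_nhds_zero_of_lt_one hr0.le hr1).const_mul 2
    rw [mul_zero] at h1
    exact squeeze_zero (fun n => by positivity) hr h1
  obtain ⟨π, hπ, hrate⟩ := ergodic_of_close Φ _ hlim
    (close_of_contraction Φ key hρ0 hcone hκ)
  refine ⟨π, ⟨hπ, r, hr0, hr1, fun μ hμ A u n => ?_⟩, fun i => ?_⟩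
  · refine (hrate μ hμ A u n).trans ?_
    have : (A.card : ℝ) * (1 / 2) ^ (n / T) ≤ A.card * (2 * r ^ n) :=
      mul_le_mul_of_nonneg_left (hr n) (Nat.cast_nonneg _)
    linarith
  · have hprob := hπ.prob
    have hinv : Φ.evolve^[T] π = π := by
      have : ∀ n, Φ.evolve^[n] π = π := by
        intro n
        induction n with
        | zero => rfl
        | succ n ih => rw [Function.iterate_succ_apply', ih, hπ.invariant]
      exact this T
    have e1 : ∫⁻ x, e i x ∂π = π {x | x i = true} := by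
      have hms : MeasurableSet {x : Config d Bool | x i = true} :=
        (MeasurableSet.singleton true).preimage (measurable_pi_apply i)
      rw [← lintegral_indicator_one hms]
      apply lintegral_congr
      intro x
      by_cases hx : x i = true
      · simp [e, Set.indicator, hx]
      · simp [e, Set.indicator, hx]
    have e2 := Φ.lintegral_iterate π T (e_dependsOn i)
    rw [hinv, e1] at e2
    have e3 : ENNReal.ofReal (1 - ρ) ≤ π {x | x i = true} := by
      rw [e2]
      calc ENNReal.ofReal (1 - ρ) = ∫⁻ _, ENNReal.ofReal (1 - ρ) ∂π := by simp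
        _ ≤ _ := lintegral_mono fun x => by
            rw [← ENNReal.ofReal_toReal (fin_e T i x)]
            apply ENNReal.ofReal_le_ofReal
            have := key i x
            linarith
    have e4 := ENNReal.toReal_mono (measure_ne_top π _) e3
    rw [ENNReal.toReal_ofReal (by linarith)] at e4
    linarith

/-! ### Exchange of the symbols -/

/-- The automaton with exchanged symbols. -/
noncomputable def flp (Φ : PCA d Bool) : PCA d Bool where
  nbhd := Φ.nbhd
  rule := fun u => (Φ.rule (fun n => !u n)).map (fun b => !b)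

theorem flp_apply (Φ : PCA d Bool) (u : Φ.nbhd → Bool) (b : Bool) :
    (flp Φ).rule u b = Φ.rule (fun n => !u n) (!b) := by
  show ((Φ.rule (fun n => !u n)).map (fun b => !b)) b = _
  rw [PMF.map_apply, tsum_fintype, Fintype.sum_bool]
  cases b <;> simp

theorem flp_step (Φ : PCA d Bool) (x : Config d Bool) :
    (flp Φ).step (fl x) = (Φ.step x).map fl := by
  have h := Measure.infinitePi_map_pi
    (μ := fun i : Site d => (Φ.rule (Φ.pattern x i)).toMeasure)
    (f := fun (_ : Site d) (b : Bool) => !b) (fun _ => Measurable.of_discrete)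
  have h2 : (fun (w : Config d Bool) (i : Site d) => !w i) = fl := rfl
  unfold PCA.step
  rw [← h2]
  refine Eq.trans ?_ h.symm
  congr 1
  funext i
  rw [PMF.toMeasure_map (p := Φ.rule (Φ.pattern x i)) (f := fun b : Bool => !b)
    Measurable.of_discrete]
  congr 1
  show (Φ.rule (fun n => !(!x (i + n)))).map (fun b => !b) = _
  simp only [Bool.not_not]
  rfl

theorem flp_evolve (Φ : PCA d Bool) (ν : Measure (Config d Bool)) :
    (flp Φ).evolve (ν.map fl) = (Φ.evolve ν).map fl := by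
  ext s hs
  have hmeas : Measurable (fun y : Config d Bool => (flp Φ).step y s) :=
    (Measure.measurable_coe hs).comp (PCA.measurable_step _)
  unfold PCA.evolve
  rw [Measure.map_apply measurable_fl hs,
    Measure.bind_apply hs (PCA.measurable_step _).aemeasurable,
    Measure.bind_apply (measurable_fl hs) (PCA.measurable_step _).aemeasurable,
    lintegral_map hmeas measurable_fl]
  apply lintegral_congr
  intro x
  rw [flp_step, Measure.map_apply measurable_fl hs]

theorem flp_evolve_iterate (Φ : PCA d Bool) (ν : Measure (Config d Bool)) (n : ℕ) :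
    (flp Φ).evolve^[n] (ν.map fl) = (Φ.evolve^[n] ν).map fl := by
  induction n with
  | zero => rfl
  | succ n ih => rw [Function.iterate_succ_apply', Function.iterate_succ_apply', ih, flp_evolve]

theorem expErgodic_flp {Φ : PCA d Bool} {π : Measure (Config d Bool)}
    (h : ExpErgodic (flp Φ) π) : ExpErgodic Φ (π.map fl) := by
  have hp := h.erg.prob
  have hp' : IsProbabilityMeasure (π.map fl) := Measure.isProbabilityMeasure_map measurable_fl.aemeasurable
  obtain ⟨r, hr0, hr1, hr⟩ := h.rate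
  have key : ∀ μ : Measure (Config d Bool), IsProbabilityMeasure μ →
      ∀ (A : Finset (Site d)) (u : A → Bool) (n : ℕ),
      |((Φ.evolve^[n] μ) (cyl A u)).toReal - ((π.map fl) (cyl A u)).toReal| ≤
        4 * A.card * r ^ n := by
    intro μ hμ A u n
    have hμ' : IsProbabilityMeasure (μ.map fl) := Measure.isProbabilityMeasure_map measurable_fl.aemeasurable
    have h1 := hr (μ.map fl) hμ' A (fun a => !u a) n
    rw [flp_evolve_iterate, Measure.map_apply measurable_fl (measurableSet_cyl A _),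
      fl_preimage_cyl] at h1
    rw [Measure.map_apply measurable_fl (measurableSet_cyl A _), fl_preimage_cyl]
    simpa using h1
  refine ⟨ergodicWith_of_cylinders _ _ ?_, r, hr0, hr1, key⟩
  intro μ hμ A u
  have hlim : Tendsto (fun n => ((Φ.evolve^[n] μ) (cyl A u)).toReal) atTop
      (𝓝 ((π.map fl) (cyl A u)).toReal) := by
    rw [tendsto_iff_dist_tendsto_zero]
    have h1 := (tendsto_pow_atTop_nhds_zero_of_lt_one hr0.le hr1).const_mul (4 * (A.card : ℝ))
    rw [mul_zero] at h1
    refine squeeze_zero (fun _ => dist_nonneg) (fun n => ?_) h1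
    rw [Real.dist_eq]
    exact key μ hμ A u n
  have hpn : ∀ n, IsProbabilityMeasure (Φ.evolve^[n] μ) := fun n =>
    Φ.isProbabilityMeasure_iterate μ n
  have := ENNReal.tendsto_ofReal hlim
  rw [ENNReal.ofReal_toReal (measure_ne_top _ _)] at this
  refine this.congr (fun n => ?_)
  exact ENNReal.ofReal_toReal (measure_ne_top _ _)

theorem pert_flp {Φ : PCA d Bool} {τ δ : ℝ} (h : Pert Φ N m false τ δ) :
    Pert (flp Φ) N (dualRule m) true τ δ := by
  have hpat : ∀ (x : Config d Bool) (i : Site d),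
      (flp Φ).rule ((flp Φ).pattern x i) true = Φ.rule (Φ.pattern (fl x) i) false := fun x i =>
    flp_apply Φ _ true
  constructor
  · intro x i
    rw [hpat]
    exact h.all _ _
  · intro x i hx
    rw [hpat]
    apply h.good
    have h1 := ca_dual (N := N) (m := m) 1 (fl x) i
    simp only [Function.iterate_one] at h1
    rw [fl_fl, hx] at h1
    simpa using h1.symm

/-- **Biased perturbations of monotone automata.** -/
theorem gen (hm : Monotone m) (b : Bool) (hb : ¬ Erodes N m b) (N' : Finset (Site d)) {η : ℝ}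
    (hη : 0 < η) :
    ∃ c : ℝ, 0 < c ∧ ∃ K : ℕ, ∀ (Φ : PCA d Bool) (τ δ : ℝ), Φ.nbhd ⊆ N' → 0 < τ → 0 ≤ δ →
      δ ≤ c * τ ^ K → Pert Φ N m b τ δ →
      ∃ π : Measure (Config d Bool), ExpErgodic Φ π ∧
        ∀ i, 1 - η ≤ (π {x | x i = b}).toReal := by
  cases b with
  | true =>
    obtain ⟨x0, F, hF, hs⟩ := survive hb
    obtain ⟨c, hc, h⟩ := gen_true hm F hF hs N' hη
    exact ⟨c, hc, F.card * (4 * d + 2), h⟩
  | false =>
    obtain ⟨x0, F, hF, hs⟩ := survive (not_erodes_dual hb)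
    obtain ⟨c, hc, h⟩ := gen_true (dualRule_mono hm) F hF hs N' hη
    refine ⟨c, hc, F.card * (4 * d + 2), fun Φ τ δ hΦ hτ hδ hcδ hP => ?_⟩
    obtain ⟨π, hπ, hd⟩ := h (flp Φ) τ δ hΦ hτ hδ hcδ (pert_flp hP)
    refine ⟨π.map fl, expErgodic_flp hπ, fun i => ?_⟩
    have hms : MeasurableSet {x : Config d Bool | x i = false} :=
      (MeasurableSet.singleton false).preimage (measurable_pi_apply i)
    rw [Measure.map_apply measurable_fl hms]
    have e1 : (fl ⁻¹' {x : Config d Bool | x i = false}) = {x | x i = true} := by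
      ext x; simp [fl]
    rw [e1]
    exact hd i

end Pool.Agent.Y992.ND
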